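import Pool.Agent.Helper90.QF.St

/-!
# Project QF (MP_04a253_al): assembly
-/

set_option autoImplicit false

open MvPolynomial

noncomputable section

namespace Pool.Agent.Helper90.QF

/-! ### coefficients -/

section co

variable (U : StUBA)
include U

lemma co_X (z : UU) (c : ℂ) (j : ℤ) : co ((Polynomial.X : Polynomial ℂ) • z) c j = co z c (j + 2) :=
  U.1 z c j

lemma co_C (a : ℂ) (z : UU) (c : ℂ) (j : ℤ) :
    co ((Polynomial.C a : Polynomial ℂ) • z) c j = Polynomial.C a * co z c j :=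
  U.2.1 a z c j

lemma co_add (z z' : UU) (c : ℂ) (j : ℤ) : co (z + z') c j = co z c j + co z' c j :=
  U.2.2.2.2.2.2.2.2.2.2.2.2 z z' c j

omit U in
lemma co_zero (c : ℂ) (j : ℤ) : co (0 : UU) c j = 0 := rfl

omit U in
lemma co_neg (z : UU) (c : ℂ) (j : ℤ) : co (-z) c j = -co z c j := rfl

lemma co_sum {ι : Type} (s : Finset ι) (f : ι → UU) (c : ℂ) (j : ℤ) :
    co (∑ i ∈ s, f i) c j = ∑ i ∈ s, co (f i) c j := by
  classical
  induction s using Finset.induction_on with
  | empty => simp [co_zero]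
  | insert a s ha ih => rw [Finset.sum_insert ha, Finset.sum_insert ha, co_add U, ih]

end co

/-- order at least zero -/
def O0 (z : UU) : Prop := ∀ (c : ℂ) (j : ℤ), j < 0 → co z c j = 0

lemma P1.o0 {z : UU} (h : P1 z) : O0 z := fun c j hj => h c j hj.le

lemma P0.o0 {a : ℂ} {z : UU} (h : P0 a z) : O0 z := fun c j hj => by
  by_cases hc : c = a
  · rw [hc]; exact h.2 j hj
  · exact h.1 c j hc

/-- the polynomial is constant on the face -/
def Cst {n : ℕ} (b : Fin n → ℂ) (A : Fin n → Fin n → ℂ) (F : Finset (Fin n)) : Prop :=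
  ∀ i ∈ F, b i = 0 ∧ ∀ j ∈ F, A i j = 0

/-- the result for a face -/
def FOK {n : ℕ} (W : Submodule (Polynomial ℂ) (PowerSeries ℂ × UU)) (a : ℂ) (b : Fin n → ℂ)
    (A : Fin n → Fin n → ℂ) (F : Finset (Fin n)) : Prop :=
  ∀ h : MvPolynomial (Fin n) ℂ, ∃ z, (Lam (qf a b A) F h, z) ∈ W ∧ (Cst b A F → P0 a z) ∧
    (¬ Cst b A F → P1 z)

/-- the domain clause -/
def DomC (W : Submodule (Polynomial ℂ) (PowerSeries ℂ × UU)) : Prop :=
  ∀ (e s : PowerSeries ℂ) (σ : UU) (p0 α : Polynomial ℂ), p0 ≠ 0 → (s, σ) ∈ W →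
    p0 • vt e = α • e + s → (∃ z, p0 • th z = α • z + σ) → ∃ z, (e, z) ∈ W ∧ p0 • th z = α • z + σ

section faces

variable {n : ℕ} (L : StLAM)
include L

lemma lam_add (g : MvPolynomial (Fin n) ℂ) (F : Finset (Fin n)) (h h' : MvPolynomial (Fin n) ℂ) :
    Lam g F (h + h') = Lam g F h + Lam g F h' := (L.1 n g F).1 h h'

lemma lam_C (g : MvPolynomial (Fin n) ℂ) (F : Finset (Fin n)) (c : ℂ) (h : MvPolynomial (Fin n) ℂ) :
    Lam g F (C c * h) = (Polynomial.C c : Polynomial ℂ) • Lam g F h := (L.1 n g F).2.1 c h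

lemma lam_van (g : MvPolynomial (Fin n) ℂ) (F : Finset (Fin n)) {i : Fin n} (hi : i ∉ F)
    (h : MvPolynomial (Fin n) ℂ) : Lam g F (X i * h) = 0 := (L.1 n g F).2.2.1 i hi h

lemma lam_ibp (g : MvPolynomial (Fin n) ℂ) (F : Finset (Fin n)) {i : Fin n} (hi : i ∈ F)
    (h : MvPolynomial (Fin n) ℂ) :
    Lam g F (pderiv i h) + (Polynomial.X : Polynomial ℂ) • Lam g F (h * pderiv i g) =
      Lam g F h - Lam g (F.erase i) h := (L.1 n g F).2.2.2.1 i hi h

lemma lam_zero (g : MvPolynomial (Fin n) ℂ) (F : Finset (Fin n)) : Lam g F 0 = 0 := by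
  have h := lam_C L g F 0 0
  rw [mul_zero, Polynomial.C_0, zero_smul] at h
  exact h

lemma lam_sum (g : MvPolynomial (Fin n) ℂ) (F : Finset (Fin n)) {ι : Type} (s : Finset ι)
    (f : ι → MvPolynomial (Fin n) ℂ) : Lam g F (∑ i ∈ s, f i) = ∑ i ∈ s, Lam g F (f i) := by
  classical
  induction s using Finset.induction_on with
  | empty => simp [lam_zero L]
  | insert a s ha ih => rw [Finset.sum_insert ha, Finset.sum_insert ha, lam_add L, ih]

/-- the sum over all variables of the values of linear terms -/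
lemma lam_lin (g : MvPolynomial (Fin n) ℂ) (F : Finset (Fin n)) (v : Fin n → ℂ)
    (h : MvPolynomial (Fin n) ℂ) : Lam g F (h * ∑ j, C (v j) * X j) =
      ∑ j ∈ F, (Polynomial.C (v j) : Polynomial ℂ) • Lam g F (X j * h) := by
  rw [Finset.mul_sum, lam_sum L]
  have e : ∀ j, Lam g F (h * (C (v j) * X j)) =
      (Polynomial.C (v j) : Polynomial ℂ) • Lam g F (X j * h) := by
    intro j
    rw [← lam_C L]
    congr 1
    ring
  simp only [e]
  refine (Finset.sum_subset (Finset.subset_univ F) fun j _ hj => ?_).symm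
  rw [lam_van L g F hj, smul_zero]

end faces

/-! ### constant faces -/

lemma LF_van {n : ℕ} (L : StLAM) (F : Finset (Fin n)) {i : Fin n} (hi : i ∉ F)
    (h : MvPolynomial (Fin n) ℂ) : LF F (X i * h) = 0 := by
  have h1 := lam_van L (0 : MvPolynomial (Fin n) ℂ) F hi h
  have h2 := congrArg (PowerSeries.coeff 0) h1
  simpa [Lam] using h2

lemma LF_C {n : ℕ} (F : Finset (Fin n)) (c : ℂ) (h : MvPolynomial (Fin n) ℂ) :
    LF F (C c * h) = c * LF F h := by
  rw [C_mul', map_smul, smul_eq_mul]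

lemma LF_const {n : ℕ} (L : StLAM) {a : ℂ} {b : Fin n → ℂ} {A : Fin n → Fin n → ℂ}
    {F : Finset (Fin n)} (hc : Cst b A F) (p : MvPolynomial (Fin n) ℂ) :
    LF F (p * (qf a b A - C a)) = 0 := by
  have e : p * (qf a b A - C a) = ∑ i, C (b i) * (X i * p) +
      ∑ i, ∑ j, C (A i j) * (X i * (X j * p)) := by
    unfold qf
    have : p * (C a + ∑ i, C (b i) * X i + ∑ i, ∑ j, C (A i j) * (X i * X j) - C a) =
        (∑ i, C (b i) * X i) * p + (∑ i, ∑ j, C (A i j) * (X i * X j)) * p := by ring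
    rw [this, Finset.sum_mul, Finset.sum_mul]
    congr 1
    · refine Finset.sum_congr rfl fun i _ => ?_
      ring
    · refine Finset.sum_congr rfl fun i _ => ?_
      rw [Finset.sum_mul]
      refine Finset.sum_congr rfl fun j _ => ?_
      ring
  rw [e, map_add, map_sum, map_sum]
  have h1 : ∀ i, LF F (C (b i) * (X i * p)) = 0 := by
    intro i
    rw [LF_C]
    by_cases hi : i ∈ F
    · rw [(hc i hi).1, zero_mul]
    · rw [LF_van L F hi, mul_zero]
  have h2 : ∀ i, LF F (∑ j, C (A i j) * (X i * (X j * p))) = 0 := by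
    intro i
    rw [map_sum]
    refine Finset.sum_eq_zero fun j _ => ?_
    rw [LF_C]
    by_cases hi : i ∈ F
    · by_cases hj : j ∈ F
      · rw [(hc i hi).2 j hj, zero_mul]
      · have : X i * (X j * p) = X j * (X i * p) := by ring
        rw [this, LF_van L F hj, mul_zero]
    · rw [LF_van L F hi, mul_zero]
  rw [Finset.sum_eq_zero fun i _ => h1 i, Finset.sum_eq_zero fun i _ => h2 i, add_zero]

lemma P0_smul (U : StUBA) {a : ℂ} {z : UU} (c : ℂ) (h : P0 a z) :
    P0 a ((Polynomial.C c : Polynomial ℂ) • z) := by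
  refine ⟨fun c' j hc => ?_, fun j hj => ?_⟩
  · rw [co_C U, h.1 c' j hc, mul_zero]
  · rw [co_C U, h.2 j hj, mul_zero]

lemma P1_smul (U : StUBA) {z : UU} (c : ℂ) (h : P1 z) :
    P1 ((Polynomial.C c : Polynomial ℂ) • z) := by
  intro c' j hj
  rw [co_C U, h c' j hj, mul_zero]

lemma P1_add (U : StUBA) {z z' : UU} (h : P1 z) (h' : P1 z') : P1 (z + z') := by
  intro c j hj
  rw [co_add U, h c j hj, h' c j hj, add_zero]

lemma P1_zero : P1 (0 : UU) := fun _ _ _ => rfl

lemma O0_smul (U : StUBA) {z : UU} (c : ℂ) (h : O0 z) :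
    O0 ((Polynomial.C c : Polynomial ℂ) • z) := by
  intro c' j hj
  rw [co_C U, h c' j hj, mul_zero]

lemma O0_add (U : StUBA) {z z' : UU} (h : O0 z) (h' : O0 z') : O0 (z + z') := by
  intro c j hj
  rw [co_add U, h c j hj, h' c j hj, add_zero]

lemma O0_sum (U : StUBA) {ι : Type} (s : Finset ι) (f : ι → UU) (h : ∀ i ∈ s, O0 (f i)) :
    O0 (∑ i ∈ s, f i) := by
  intro c j hj
  rw [co_sum U]
  exact Finset.sum_eq_zero fun i hi => h i hi c j hj

lemma P1_sum (U : StUBA) {ι : Type} (s : Finset ι) (f : ι → UU) (h : ∀ i ∈ s, P1 (f i)) :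
    P1 (∑ i ∈ s, f i) := by
  intro c j hj
  rw [co_sum U]
  exact Finset.sum_eq_zero fun i hi => h i hi c j hj

theorem fok_const {n : ℕ} (U : StUBA) (L : StLAM) (S : StSOL) (O : StORD)
    {W : Submodule (Polynomial ℂ) (PowerSeries ℂ × UU)} (hD : DomC W) {a : ℂ} {b : Fin n → ℂ}
    {A : Fin n → Fin n → ℂ} {F : Finset (Fin n)} (hc : Cst b A F) : FOK W a b A F := by
  obtain ⟨z, hz, hz2⟩ := hD (PowerSeries.mk fun m => a ^ m / m.factorial) 0 0 1
    (Polynomial.C a * Polynomial.X) one_ne_zero W.zero_mem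
    (by rw [one_smul, add_zero]; exact L.2.1 a)
    (by
      obtain ⟨z, hz⟩ := S.2 a
      exact ⟨z, by rw [one_smul, add_zero]; exact hz⟩)
  rw [one_smul, add_zero] at hz2
  have hP := O.2.1 a z hz2
  intro h
  refine ⟨(Polynomial.C (LF F h) : Polynomial ℂ) • z, ?_, fun _ => P0_smul U _ hP,
    fun hn => absurd hc hn⟩
  rw [(L.1 n (qf a b A) F).2.2.2.2.2 a (LF_const L hc) h]
  exact W.smul_mem _ hz

/-! ### induction over monomials -/

lemma mono_ind {n : ℕ} (Q : MvPolynomial (Fin n) ℂ → Prop)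
    (hadd : ∀ h h', Q h → Q h' → Q (h + h')) (hC : ∀ (c : ℂ) h, Q h → Q (C c * h))
    (hm : ∀ s : Fin n →₀ ℕ, (∀ s' : Fin n →₀ ℕ, s'.degree < s.degree → Q (monomial s' 1)) →
      Q (monomial s 1)) : ∀ h, Q h := by
  have h1 : ∀ N : ℕ, ∀ s : Fin n →₀ ℕ, s.degree = N → Q (monomial s 1) := by
    intro N
    induction N using Nat.strong_induction_on with
    | _ N ih =>
      intro s hs
      apply hm
      intro s' hs'
      exact ih s'.degree (by rw [← hs]; exact hs') s' rfl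
  intro h
  induction h using MvPolynomial.induction_on' with
  | monomial u c =>
    have e : (monomial u c : MvPolynomial (Fin n) ℂ) = C c * monomial u 1 := by
      rw [C_mul_monomial, mul_one]
    rw [e]
    exact hC c _ (h1 _ u rfl)
  | add p q hp hq => exact hadd p q hp hq

/-- derivatives of monomials -/
lemma pderiv_mono {n : ℕ} (s : Fin n →₀ ℕ) (i : Fin n) :
    (pderiv i (monomial s 1 : MvPolynomial (Fin n) ℂ) =
      C (s i : ℂ) * monomial (s - Finsupp.single i 1) 1) ∧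
    (s i ≠ 0 → (s - Finsupp.single i 1).degree < s.degree) := by
  constructor
  · rw [pderiv_monomial, C_mul_monomial, one_mul, mul_one]
  · intro h
    have h1 : s - Finsupp.single i 1 + Finsupp.single i 1 = s := by
      apply tsub_add_cancel_of_le
      rw [Finsupp.single_le_iff]
      omega
    have h2 := congrArg Finsupp.degree h1
    rw [map_add, Finsupp.degree_single] at h2
    omega

/-- a property of polynomials of lower degree passes to derivatives -/
lemma Q_pderiv {n : ℕ} (Q : MvPolynomial (Fin n) ℂ → Prop) (h0 : Q 0)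
    (hC : ∀ (c : ℂ) h, Q h → Q (C c * h)) (s : Fin n →₀ ℕ)
    (hs : ∀ s' : Fin n →₀ ℕ, s'.degree < s.degree → Q (monomial s' 1)) (i : Fin n) :
    Q (pderiv i (monomial s 1)) := by
  obtain ⟨h1, h2⟩ := pderiv_mono s i
  rw [h1]
  by_cases h : s i = 0
  · rw [h, Nat.cast_zero, C_0, zero_mul]
    exact h0
  · exact hC _ _ (hs _ (h2 h))

/-! ### singular faces -/

lemma ker_rel {n : ℕ} (L : StLAM) (Dg : StDEG) {a : ℂ} {b : Fin n → ℂ} {A : Fin n → Fin n → ℂ}
    (hA : ∀ i j, A i j = A j i) {F : Finset (Fin n)} {ξ : Fin n → ℂ}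
    (hk : ∀ i ∈ F, ∑ j ∈ F, A i j * ξ j = 0) (h : MvPolynomial (Fin n) ℂ) :
    (Polynomial.C (∑ i ∈ F, ξ i) - Polynomial.C (∑ i ∈ F, ξ i * b i) * Polynomial.X) •
      Lam (qf a b A) F h = (∑ i ∈ F, (Polynomial.C (ξ i) : Polynomial ℂ) •
        Lam (qf a b A) F (pderiv i h)) +
      ∑ i ∈ F, (Polynomial.C (ξ i) : Polynomial ℂ) • Lam (qf a b A) (F.erase i) h := by
  set g := qf a b A with hg
  -- the term with the derivative of `g`
  have hder : ∀ i, Lam g F (h * pderiv i g) = (Polynomial.C (b i) : Polynomial ℂ) • Lam g F h +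
      (Polynomial.C 2 : Polynomial ℂ) • ∑ j ∈ F, (Polynomial.C (A i j) : Polynomial ℂ) •
        Lam g F (X j * h) := by
    intro i
    rw [hg, (Dg.2 n a b A hA).1 i, ← hg]
    have e : h * (C (b i) + C 2 * ∑ j, C (A i j) * X j) =
        C (b i) * h + C 2 * (h * ∑ j, C (A i j) * X j) := by ring
    rw [e, lam_add L, lam_C L, lam_C L, lam_lin L]
  have hsum : ∑ i ∈ F, (Polynomial.C (ξ i) : Polynomial ℂ) • Lam g F (h * pderiv i g) =
      (Polynomial.C (∑ i ∈ F, ξ i * b i) : Polynomial ℂ) • Lam g F h := by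
    simp only [hder, smul_add, Finset.sum_add_distrib]
    have e1 : ∑ i ∈ F, (Polynomial.C (ξ i) : Polynomial ℂ) •
        ((Polynomial.C (b i) : Polynomial ℂ) • Lam g F h) =
        (Polynomial.C (∑ i ∈ F, ξ i * b i) : Polynomial ℂ) • Lam g F h := by
      rw [map_sum, Finset.sum_smul]
      refine Finset.sum_congr rfl fun i _ => ?_
      rw [smul_smul, Polynomial.C_mul]
    have e2 : ∑ i ∈ F, (Polynomial.C (ξ i) : Polynomial ℂ) • ((Polynomial.C 2 : Polynomial ℂ) •
        ∑ j ∈ F, (Polynomial.C (A i j) : Polynomial ℂ) • Lam g F (X j * h)) = 0 := by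
      have e3 : ∀ i ∈ F, (Polynomial.C (ξ i) : Polynomial ℂ) • ((Polynomial.C 2 : Polynomial ℂ) •
          ∑ j ∈ F, (Polynomial.C (A i j) : Polynomial ℂ) • Lam g F (X j * h)) =
          ∑ j ∈ F, (Polynomial.C (2 * (A j i * ξ i)) : Polynomial ℂ) • Lam g F (X j * h) := by
        intro i _
        rw [Finset.smul_sum, Finset.smul_sum]
        refine Finset.sum_congr rfl fun j _ => ?_
        rw [smul_smul, smul_smul, ← Polynomial.C_mul, ← Polynomial.C_mul, hA i j]
        congr 2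
        ring
      rw [Finset.sum_congr rfl e3, Finset.sum_comm]
      refine Finset.sum_eq_zero fun j hj => ?_
      rw [← Finset.sum_smul, ← map_sum, ← Finset.mul_sum, hk j hj, mul_zero, Polynomial.C_0,
        zero_smul]
    rw [e1, e2, add_zero]
  have hibp : ∑ i ∈ F, (Polynomial.C (ξ i) : Polynomial ℂ) • (Lam g F (pderiv i h) +
      (Polynomial.X : Polynomial ℂ) • Lam g F (h * pderiv i g)) =
      ∑ i ∈ F, (Polynomial.C (ξ i) : Polynomial ℂ) • (Lam g F h - Lam g (F.erase i) h) :=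
    Finset.sum_congr rfl fun i hi => by rw [lam_ibp L g F hi h]
  have e4 : ∑ i ∈ F, (Polynomial.C (ξ i) : Polynomial ℂ) • (Lam g F (pderiv i h) +
      (Polynomial.X : Polynomial ℂ) • Lam g F (h * pderiv i g)) =
      (∑ i ∈ F, (Polynomial.C (ξ i) : Polynomial ℂ) • Lam g F (pderiv i h)) +
      (Polynomial.X : Polynomial ℂ) • ((Polynomial.C (∑ i ∈ F, ξ i * b i) : Polynomial ℂ) •
        Lam g F h) := by
    rw [← hsum, Finset.smul_sum]
    simp only [smul_add, Finset.sum_add_distrib]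
    congr 1
    refine Finset.sum_congr rfl fun i _ => ?_
    rw [smul_smul, smul_smul, mul_comm]
  have e5 : ∑ i ∈ F, (Polynomial.C (ξ i) : Polynomial ℂ) • (Lam g F h - Lam g (F.erase i) h) =
      (Polynomial.C (∑ i ∈ F, ξ i) : Polynomial ℂ) • Lam g F h -
      ∑ i ∈ F, (Polynomial.C (ξ i) : Polynomial ℂ) • Lam g (F.erase i) h := by
    simp only [smul_sub, Finset.sum_sub_distrib]
    rw [map_sum, Finset.sum_smul]
  rw [e4, e5] at hibp
  have e6 : (Polynomial.C (∑ i ∈ F, ξ i) - Polynomial.C (∑ i ∈ F, ξ i * b i) * Polynomial.X) •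
      Lam g F h = (Polynomial.C (∑ i ∈ F, ξ i) : Polynomial ℂ) • Lam g F h -
      (Polynomial.X : Polynomial ℂ) • ((Polynomial.C (∑ i ∈ F, ξ i * b i) : Polynomial ℂ) •
        Lam g F h) := by
    rw [sub_smul, smul_smul, mul_comm (Polynomial.X : Polynomial ℂ)]
  rw [e6, sub_eq_iff_eq_add]
  have e7 : (Polynomial.C (∑ i ∈ F, ξ i) : Polynomial ℂ) • Lam g F h =
      ((∑ i ∈ F, (Polynomial.C (ξ i) : Polynomial ℂ) • Lam g F (pderiv i h)) +
      (Polynomial.X : Polynomial ℂ) • ((Polynomial.C (∑ i ∈ F, ξ i * b i) : Polynomial ℂ) •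
        Lam g F h)) + ∑ i ∈ F, (Polynomial.C (ξ i) : Polynomial ℂ) • Lam g (F.erase i) h := by
    rw [hibp]
    abel
  rw [e7]
  abel

lemma xi_zero {n : ℕ} {b : Fin n → ℂ} {A : Fin n → Fin n → ℂ} (hA : ∀ i j, A i j = A j i)
    {F : Finset (Fin n)} (hn : ¬ Cst b A F) {ξ : Fin n → ℂ}
    (hk : ∀ i ∈ F, ∑ j ∈ F, A i j * ξ j = 0) (hβ : ∑ i ∈ F, ξ i * b i = 0) {i : Fin n}
    (hi : i ∈ F) (hc : Cst b A (F.erase i)) : ξ i = 0 := by
  by_contra hξ
  apply hn
  have hb : b i = 0 := by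
    rw [Finset.sum_eq_single_of_mem i hi] at hβ
    · exact (mul_eq_zero.1 hβ).resolve_left hξ
    · intro j hj hji
      rw [(hc j (Finset.mem_erase.2 ⟨hji, hj⟩)).1, mul_zero]
  have hji : ∀ j ∈ F, j ≠ i → A j i = 0 := by
    intro j hj hne
    have h := hk j hj
    rw [Finset.sum_eq_single_of_mem i hi] at h
    · exact (mul_eq_zero.1 h).resolve_right hξ
    · intro l hl hli
      rw [(hc j (Finset.mem_erase.2 ⟨hne, hj⟩)).2 l (Finset.mem_erase.2 ⟨hli, hl⟩), zero_mul]
  have hii : A i i = 0 := by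
    have h := hk i hi
    rw [Finset.sum_eq_single_of_mem i hi] at h
    · exact (mul_eq_zero.1 h).resolve_right hξ
    · intro l hl hli
      rw [hA i l, hji l hl hli, zero_mul]
  intro j hj
  by_cases hne : j = i
  · subst hne
    refine ⟨hb, fun l hl => ?_⟩
    by_cases hl' : l = j
    · rw [hl', hii]
    · rw [hA j l]
      exact hji l hl hl'
  · refine ⟨(hc j (Finset.mem_erase.2 ⟨hne, hj⟩)).1, fun l hl => ?_⟩
    by_cases hl' : l = i
    · rw [hl']
      exact hji j hj hne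
    · exact (hc j (Finset.mem_erase.2 ⟨hne, hj⟩)).2 l (Finset.mem_erase.2 ⟨hl', hl⟩)

lemma pair_sum {W : Submodule (Polynomial ℂ) (PowerSeries ℂ × UU)} {ι : Type} (s : Finset ι)
    (f : ι → PowerSeries ℂ) (g : ι → UU) (h : ∀ i ∈ s, (f i, g i) ∈ W) :
    (∑ i ∈ s, f i, ∑ i ∈ s, g i) ∈ W := by
  classical
  induction s using Finset.induction_on with
  | empty => exact W.zero_mem
  | insert a s ha ih =>
    rw [Finset.sum_insert ha, Finset.sum_insert ha]
    exact W.add_mem (h a (Finset.mem_insert_self a s))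
      (ih fun i hi => h i (Finset.mem_insert_of_mem hi))

/-- the contribution of the smaller faces -/
lemma lower {n : ℕ} (U : StUBA) {W : Submodule (Polynomial ℂ) (PowerSeries ℂ × UU)} {a : ℂ}
    {b : Fin n → ℂ} {A : Fin n → Fin n → ℂ} {F : Finset (Fin n)}
    (hlow : ∀ i ∈ F, FOK W a b A (F.erase i)) (v : Fin n → ℂ) (h : MvPolynomial (Fin n) ℂ) :
    ∃ z, (∑ i ∈ F, (Polynomial.C (v i) : Polynomial ℂ) • Lam (qf a b A) (F.erase i) h, z) ∈ W ∧
      O0 z ∧ ((∀ i ∈ F, Cst b A (F.erase i) → v i = 0) → P1 z) ∧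
      ∀ c, (c = a → ∀ i ∈ F, Cst b A (F.erase i) → v i = 0) → co z c 0 = 0 := by
  have h1 : ∀ i, ∃ z, i ∈ F → (Lam (qf a b A) (F.erase i) h, z) ∈ W ∧
      (Cst b A (F.erase i) → P0 a z) ∧ (¬ Cst b A (F.erase i) → P1 z) := by
    intro i
    by_cases hi : i ∈ F
    · obtain ⟨z, hz⟩ := hlow i hi h
      exact ⟨z, fun _ => hz⟩
    · exact ⟨0, fun h' => absurd h' hi⟩
  choose z hz using h1
  have hO : ∀ i ∈ F, O0 (z i) := by
    intro i hi
    by_cases hc : Cst b A (F.erase i)
    · exact ((hz i hi).2.1 hc).o0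
    · exact ((hz i hi).2.2 hc).o0
  refine ⟨∑ i ∈ F, (Polynomial.C (v i) : Polynomial ℂ) • z i, ?_, ?_, ?_, ?_⟩
  · exact pair_sum F _ _ fun i hi => W.smul_mem _ (hz i hi).1
  · exact O0_sum U F _ fun i hi => O0_smul U _ (hO i hi)
  · intro hv
    refine P1_sum U F _ fun i hi => ?_
    by_cases hc : Cst b A (F.erase i)
    · rw [hv i hi hc, Polynomial.C_0, zero_smul]
      exact P1_zero
    · exact P1_smul U _ ((hz i hi).2.2 hc)
  · intro c hv
    rw [co_sum U]
    refine Finset.sum_eq_zero fun i hi => ?_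
    rw [co_C U]
    by_cases hc : Cst b A (F.erase i)
    · by_cases hca : c = a
      · rw [hv hca i hi hc, Polynomial.C_0, zero_mul]
      · rw [((hz i hi).2.1 hc).1 c 0 hca, mul_zero]
    · rw [(hz i hi).2.2 hc c 0 le_rfl, mul_zero]

theorem fok_ker {n : ℕ} (U : StUBA) (L : StLAM) (Dg : StDEG) (O : StORD) (Su : StSUR)
    {W : Submodule (Polynomial ℂ) (PowerSeries ℂ × UU)} (hW : Good vt th W) {a : ℂ}
    {b : Fin n → ℂ} {A : Fin n → Fin n → ℂ} (hA : ∀ i j, A i j = A j i) {F : Finset (Fin n)}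
    (hn : ¬ Cst b A F) (hlow : ∀ i ∈ F, FOK W a b A (F.erase i)) {ξ : Fin n → ℂ}
    (hξ : ∃ i, ξ i ≠ 0) (hξF : ∀ i, i ∉ F → ξ i = 0)
    (hk : ∀ i ∈ F, ∑ j ∈ F, A i j * ξ j = 0) : FOK W a b A F := by
  set g := qf a b A with hg
  set α := ∑ i ∈ F, ξ i with hα
  set β := ∑ i ∈ F, ξ i * b i with hβ
  have hlo := fun h => lower U hlow ξ h
  have hxi : β = 0 → ∀ i ∈ F, Cst b A (F.erase i) → ξ i = 0 := fun hb i hi hc =>
    xi_zero hA hn hk hb hi hc
  have main : ∀ h : MvPolynomial (Fin n) ℂ, ∃ z, (Lam g F h, z) ∈ W ∧ P1 z := by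
    by_cases h0 : α = 0 ∧ β = 0
    · intro h
      obtain ⟨H, hH⟩ := Su n ξ hξ h
      have hr := ker_rel (a := a) (b := b) L Dg hA hk H
      rw [← hg, ← hα, ← hβ, h0.1, h0.2, Polynomial.C_0, zero_mul, sub_zero, zero_smul] at hr
      have e1 : ∑ i ∈ F, (Polynomial.C (ξ i) : Polynomial ℂ) • Lam g F (pderiv i H) =
          Lam g F h := by
        rw [← hH, lam_sum L]
        simp only [lam_C L]
        refine Finset.sum_subset (Finset.subset_univ F) fun i _ hi => ?_
        rw [hξF i hi, Polynomial.C_0, zero_smul]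
      rw [e1] at hr
      obtain ⟨z, hz1, -, hz3, -⟩ := hlo H
      refine ⟨-z, ?_, ?_⟩
      · have h2 := W.neg_mem hz1
        have e2 : Lam g F h = -∑ i ∈ F, (Polynomial.C (ξ i) : Polynomial ℂ) •
            Lam (qf a b A) (F.erase i) H := by
          rw [eq_neg_iff_add_eq_zero]
          exact hr.symm
        rw [e2]
        exact h2
      · intro c j hj
        rw [co_neg, hz3 (hxi h0.2) c j hj, neg_zero]
    · have hp : (Polynomial.C α - Polynomial.C β * Polynomial.X : Polynomial ℂ) ≠ 0 := by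
        intro h
        apply h0
        constructor
        · have := congrArg (fun p => Polynomial.coeff p 0) h
          simpa using this
        · have := congrArg (fun p => Polynomial.coeff p 1) h
          simpa [Polynomial.coeff_C] using this
      apply mono_ind (fun h => ∃ z, (Lam g F h, z) ∈ W ∧ P1 z)
      · rintro h h' ⟨z, hz, hz'⟩ ⟨y, hy, hy'⟩
        refine ⟨z + y, ?_, P1_add U hz' hy'⟩
        rw [lam_add L]
        exact W.add_mem hz hy
      · rintro c h ⟨z, hz, hz'⟩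
        refine ⟨(Polynomial.C c : Polynomial ℂ) • z, ?_, P1_smul U c hz'⟩
        rw [lam_C L]
        exact W.smul_mem _ hz
      · intro s hs
        have hd : ∀ i, ∃ z, (Lam g F (pderiv i (monomial s 1)), z) ∈ W ∧ P1 z := by
          intro i
          apply Q_pderiv (fun h => ∃ z, (Lam g F h, z) ∈ W ∧ P1 z)
          · refine ⟨0, ?_, P1_zero⟩
            rw [lam_zero L]
            exact W.zero_mem
          · rintro c h ⟨z, hz, hz'⟩
            refine ⟨(Polynomial.C c : Polynomial ℂ) • z, ?_, P1_smul U c hz'⟩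
            rw [lam_C L]
            exact W.smul_mem _ hz
          · exact hs
        choose zd hzd1 hzd2 using hd
        obtain ⟨zl, hl1, hl2, hl3, -⟩ := hlo (monomial s 1)
        have hm1 : (∑ i ∈ F, (Polynomial.C (ξ i) : Polynomial ℂ) •
            Lam g F (pderiv i (monomial s 1)),
            ∑ i ∈ F, (Polynomial.C (ξ i) : Polynomial ℂ) • zd i) ∈ W :=
          pair_sum F _ _ fun i _ => W.smul_mem _ (hzd1 i)
        have hP : P1 (∑ i ∈ F, (Polynomial.C (ξ i) : Polynomial ℂ) • zd i) :=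
          P1_sum U F _ fun i _ => P1_smul U _ (hzd2 i)
        have hm2 := W.add_mem hm1 hl1
        set zr := (∑ i ∈ F, (Polynomial.C (ξ i) : Polynomial ℂ) • zd i) + zl with hzr
        obtain ⟨z, hz⟩ := U.2.2.2.2.2.2.1 _ hp zr
        refine ⟨z, ?_, ?_⟩
        · apply hW.sat _ hp
          rw [hz]
          have hr := ker_rel (a := a) (b := b) L Dg hA hk (monomial s 1)
          rw [← hg, ← hα, ← hβ] at hr
          rw [hr]
          exact hm2
        · by_cases hb : β = 0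
          · have hPr : P1 zr := P1_add U hP (hl3 (hxi hb))
            have hα0 : α ≠ 0 := fun h => h0 ⟨h, hb⟩
            rw [hb, Polynomial.C_0, zero_mul, sub_zero] at hz
            intro c j hj
            have h1 := hPr c j hj
            rw [← hz, co_C U] at h1
            rcases mul_eq_zero.1 h1 with h2 | h2
            · exact absurd (Polynomial.C_eq_zero.1 h2) hα0
            · exact h2
          · exact O.2.2 α β zr z hb hz (O0_add U hP.o0 hl2)
  intro h
  obtain ⟨z, h1, h2⟩ := main h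
  exact ⟨z, h1, fun hc => absurd hc hn, fun _ => h2⟩

end Pool.Agent.Helper90.QF
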