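import Pool.Agent.Helper90.QF.Asm

/-!
# Project QF (MP_04a253_al): assembly, part 2 (nonsingular faces)
-/

set_option autoImplicit false

open MvPolynomial

noncomputable section

namespace Pool.Agent.Helper90.QF

variable {n : ℕ}

/-- the term with the derivative of `g` -/
lemma lam_der (L : StLAM) (Dg : StDEG) {a : ℂ} {b : Fin n → ℂ} {A : Fin n → Fin n → ℂ}
    (hA : ∀ i j, A i j = A j i) (F : Finset (Fin n)) (h : MvPolynomial (Fin n) ℂ) (i : Fin n) :
    Lam (qf a b A) F (h * pderiv i (qf a b A)) =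
      (Polynomial.C (b i) : Polynomial ℂ) • Lam (qf a b A) F h +
      (Polynomial.C 2 : Polynomial ℂ) • ∑ j ∈ F, (Polynomial.C (A i j) : Polynomial ℂ) •
        Lam (qf a b A) F (X j * h) := by
  rw [(Dg.2 n a b A hA).1 i]
  have e : h * (C (b i) + C 2 * ∑ j, C (A i j) * X j) =
      C (b i) * h + C 2 * (h * ∑ j, C (A i j) * X j) := by ring
  rw [e, lam_add L, lam_C L, lam_C L, lam_lin L]

/-- linear relation for the products with variables -/
lemma inv_rel (L : StLAM) (Dg : StDEG) {a : ℂ} {b : Fin n → ℂ} {A : Fin n → Fin n → ℂ}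
    (hA : ∀ i j, A i j = A j i) {F : Finset (Fin n)} {i : Fin n} (hi : i ∈ F)
    (h : MvPolynomial (Fin n) ℂ) :
    ((2 : Polynomial ℂ) * Polynomial.X) • ∑ j ∈ F, (Polynomial.C (A i j) : Polynomial ℂ) •
        Lam (qf a b A) F (X j * h) =
      (1 - Polynomial.C (b i) * Polynomial.X : Polynomial ℂ) • Lam (qf a b A) F h -
        Lam (qf a b A) F (pderiv i h) - Lam (qf a b A) (F.erase i) h := by
  have h1 := lam_ibp L (qf a b A) F hi h
  rw [lam_der L Dg hA, smul_add, smul_smul, smul_smul] at h1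
  have e1 : (Polynomial.X * Polynomial.C 2 : Polynomial ℂ) = 2 * Polynomial.X := by
    rw [mul_comm]
    rfl
  rw [e1] at h1
  rw [sub_smul, one_smul, mul_comm (Polynomial.C (b i))]
  have h2 : ((2 : Polynomial ℂ) * Polynomial.X) • ∑ j ∈ F, (Polynomial.C (A i j) : Polynomial ℂ) •
        Lam (qf a b A) F (X j * h) = Lam (qf a b A) F h - Lam (qf a b A) (F.erase i) h -
        Lam (qf a b A) F (pderiv i h) -
        (Polynomial.X * Polynomial.C (b i) : Polynomial ℂ) • Lam (qf a b A) F h := by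
    rw [← h1]
    abel
  rw [h2]
  abel

/-- the same, solved for one product -/
lemma inv_rel2 (L : StLAM) (Dg : StDEG) {a : ℂ} {b : Fin n → ℂ} {A : Fin n → Fin n → ℂ}
    (hA : ∀ i j, A i j = A j i) {F : Finset (Fin n)} {B : Fin n → Fin n → ℂ}
    (hB : ∀ i ∈ F, ∀ j ∈ F, ∑ l ∈ F, B i l * A l j = if i = j then 1 else 0) {k : Fin n}
    (hk : k ∈ F) (h : MvPolynomial (Fin n) ℂ) :
    ((2 : Polynomial ℂ) * Polynomial.X) • Lam (qf a b A) F (X k * h) =
      ∑ i ∈ F, (Polynomial.C (B k i) : Polynomial ℂ) •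
        ((1 - Polynomial.C (b i) * Polynomial.X : Polynomial ℂ) • Lam (qf a b A) F h -
        Lam (qf a b A) F (pderiv i h) - Lam (qf a b A) (F.erase i) h) := by
  have e1 : ∑ i ∈ F, (Polynomial.C (B k i) : Polynomial ℂ) •
        ((1 - Polynomial.C (b i) * Polynomial.X : Polynomial ℂ) • Lam (qf a b A) F h -
        Lam (qf a b A) F (pderiv i h) - Lam (qf a b A) (F.erase i) h) =
      ∑ i ∈ F, (Polynomial.C (B k i) : Polynomial ℂ) • (((2 : Polynomial ℂ) * Polynomial.X) •
        ∑ j ∈ F, (Polynomial.C (A i j) : Polynomial ℂ) • Lam (qf a b A) F (X j * h)) :=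
    Finset.sum_congr rfl fun i hi => by rw [inv_rel L Dg hA hi h]
  rw [e1]
  have e2 : ∀ i ∈ F, (Polynomial.C (B k i) : Polynomial ℂ) • (((2 : Polynomial ℂ) * Polynomial.X) •
        ∑ j ∈ F, (Polynomial.C (A i j) : Polynomial ℂ) • Lam (qf a b A) F (X j * h)) =
      ((2 : Polynomial ℂ) * Polynomial.X) • ∑ j ∈ F,
        (Polynomial.C (B k i * A i j) : Polynomial ℂ) • Lam (qf a b A) F (X j * h) := by
    intro i _
    rw [smul_smul, mul_comm (Polynomial.C (B k i)), ← smul_smul]
    congr 1
    rw [Finset.smul_sum]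
    refine Finset.sum_congr rfl fun j _ => ?_
    rw [smul_smul, Polynomial.C_mul]
  rw [Finset.sum_congr rfl e2, ← Finset.smul_sum, Finset.sum_comm]
  congr 1
  have e3 : ∀ j ∈ F, ∑ i ∈ F, (Polynomial.C (B k i * A i j) : Polynomial ℂ) •
      Lam (qf a b A) F (X j * h) = (Polynomial.C (if k = j then 1 else 0) : Polynomial ℂ) •
      Lam (qf a b A) F (X j * h) := by
    intro j hj
    rw [← Finset.sum_smul, ← map_sum, hB k hk j hj]
  rw [Finset.sum_congr rfl e3, Finset.sum_eq_single_of_mem k hk]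
  · rw [if_pos rfl, Polynomial.C_1, one_smul]
  · intro j _ hj
    rw [if_neg (Ne.symm hj), Polynomial.C_0, zero_smul]

/-- the differential equation of the series with multiplier one -/
lemma ode (L : StLAM) (Dg : StDEG) {a : ℂ} {b : Fin n → ℂ} {A : Fin n → Fin n → ℂ}
    (hA : ∀ i j, A i j = A j i) {F : Finset (Fin n)} {B : Fin n → Fin n → ℂ}
    (hB : ∀ i ∈ F, ∀ j ∈ F, ∑ l ∈ F, A i l * B l j = if i = j then 1 else 0) :
    ∃ (u w : Fin n → ℂ) (σ : ℂ), (∀ l, (∀ i ∈ F, b i = 0) → w l = 0) ∧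
      ((2 : Polynomial ℂ) * Polynomial.X) • vt (Lam (qf a b A) F 1) =
        (Polynomial.C σ - Polynomial.C (F.card : ℂ) * Polynomial.X +
          Polynomial.C (2 * a - ∑ i ∈ F, w i * b i) * Polynomial.X ^ 2) • Lam (qf a b A) F 1 +
        ((∑ i ∈ F, (Polynomial.C (-u i) : Polynomial ℂ) • Lam (qf a b A) (F.erase i) 1) +
          (Polynomial.X : Polynomial ℂ) •
            ∑ i ∈ F, (Polynomial.C (-w i) : Polynomial ℂ) • Lam (qf a b A) (F.erase i) 1) := by
  set g := qf a b A with hg
  set E := Lam g F 1 with hE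
  obtain ⟨u, hu⟩ : ∃ u : Fin n → ℂ, u = fun l => (1 / 2) * ∑ i ∈ F, B l i := ⟨_, rfl⟩
  obtain ⟨w, hw⟩ : ∃ w : Fin n → ℂ, w = fun l => (1 / 2) * ∑ i ∈ F, B l i * b i := ⟨_, rfl⟩
  have hu2 : ∀ i ∈ F, ∑ l ∈ F, 2 * (A i l * u l) = 1 := by
    intro i hi
    have e1 : ∀ l, 2 * (A i l * u l) = ∑ j ∈ F, A i l * B l j := by
      intro l
      rw [hu]
      simp only
      rw [← Finset.mul_sum]
      ring
    simp only [e1]
    rw [Finset.sum_comm, Finset.sum_congr rfl fun j hj => hB i hi j hj]
    simp [hi]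
  have hw2 : ∀ i ∈ F, ∑ l ∈ F, 2 * (A i l * w l) = b i := by
    intro i hi
    have e1 : ∀ l, 2 * (A i l * w l) = ∑ j ∈ F, A i l * B l j * b j := by
      intro l
      rw [hw]
      simp only
      rw [Finset.sum_congr rfl fun j _ => mul_assoc (A i l) (B l j) (b j), ← Finset.mul_sum]
      ring
    simp only [e1]
    rw [Finset.sum_comm]
    have e2 : ∀ j ∈ F, ∑ l ∈ F, A i l * B l j * b j = if i = j then b j else 0 := by
      intro j hj
      rw [← Finset.sum_mul, hB i hi j hj]
      split_ifs <;> simp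
    rw [Finset.sum_congr rfl e2]
    simp [hi]
  -- symmetry
  have hsym : ∑ l ∈ F, w l = ∑ l ∈ F, u l * b l := by
    have e1 : ∑ i ∈ F, w i = ∑ i ∈ F, ∑ l ∈ F, 2 * (A i l * u l * w i) := by
      refine Finset.sum_congr rfl fun i hi => ?_
      have := hu2 i hi
      calc w i = (∑ l ∈ F, 2 * (A i l * u l)) * w i := by rw [this, one_mul]
        _ = _ := by
          rw [Finset.sum_mul]
          refine Finset.sum_congr rfl fun l _ => ?_
          ring
    have e2 : ∑ l ∈ F, u l * b l = ∑ l ∈ F, ∑ i ∈ F, 2 * (A i l * u l * w i) := by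
      refine Finset.sum_congr rfl fun l hl => ?_
      rw [← hw2 l hl, Finset.mul_sum]
      refine Finset.sum_congr rfl fun i _ => ?_
      rw [hA l i]
      ring
    rw [e1, e2, Finset.sum_comm]
  refine ⟨u, w, ∑ l ∈ F, u l, ?_, ?_⟩
  · intro l hb
    rw [hw]
    simp only
    rw [Finset.sum_eq_zero fun i hi => by rw [hb i hi, mul_zero], mul_zero]
  -- the first form of the equation
  have hy : ∀ i ∈ F, (Polynomial.X : Polynomial ℂ) • Lam g F (X i * pderiv i g) =
      Lam g F (X i) - E := by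
    intro i hi
    have h1 := lam_ibp L g F hi (X i)
    have h2 : Lam g (F.erase i) (X i) = 0 := by
      have := lam_van L g (F.erase i) (Finset.notMem_erase i F) 1
      rwa [mul_one] at this
    rw [h2, sub_zero, pderiv_X_self] at h1
    rw [← h1, hE]
    abel
  have hy0 : ∀ i, i ∉ F → Lam g F (X i) = 0 := by
    intro i hi
    have := lam_van L g F hi 1
    rwa [mul_one] at this
  have hvt : (2 : Polynomial ℂ) • vt E = (Polynomial.C (2 * a) * Polynomial.X -
      Polynomial.C (F.card : ℂ)) • E +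
      ∑ i ∈ F, (1 + Polynomial.C (b i) * Polynomial.X : Polynomial ℂ) • Lam g F (X i) := by
    have h1 : vt E = (Polynomial.X : Polynomial ℂ) • Lam g F g := by
      have := (L.1 n g F).2.2.2.2.1 1
      rwa [one_mul] at this
    have h2 : Lam g F (C 2 * g) = (Polynomial.C (2 * a) : Polynomial ℂ) • E +
        ∑ i ∈ F, ((Polynomial.C (b i) : Polynomial ℂ) • Lam g F (X i) +
          Lam g F (X i * pderiv i g)) := by
      have e1 : C 2 * g = C (2 * a) * 1 + ∑ i, (C (b i) * X i + X i * pderiv i g) := by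
        rw [← (Dg.2 n a b A hA).2, C_mul]
        ring
      rw [e1, lam_add L, lam_C L, lam_sum L]
      congr 1
      simp only [lam_add L, lam_C L]
      refine (Finset.sum_subset (Finset.subset_univ F) fun i _ hi => ?_).symm
      rw [hy0 i hi, lam_van L g F hi, smul_zero, add_zero]
    rw [lam_C L] at h2
    have h3 : (2 : Polynomial ℂ) • vt E = (Polynomial.X : Polynomial ℂ) •
        ((Polynomial.C 2 : Polynomial ℂ) • Lam g F g) := by
      rw [h1, smul_smul, smul_smul, mul_comm]
      rfl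
    rw [h3, h2, smul_add, smul_smul, Finset.smul_sum]
    have e2 : ∀ i ∈ F, (Polynomial.X : Polynomial ℂ) • ((Polynomial.C (b i) : Polynomial ℂ) •
        Lam g F (X i) + Lam g F (X i * pderiv i g)) =
        (1 + Polynomial.C (b i) * Polynomial.X : Polynomial ℂ) • Lam g F (X i) - E := by
      intro i hi
      rw [smul_add, hy i hi, smul_smul, add_smul, one_smul, mul_comm (Polynomial.X : Polynomial ℂ)]
      abel
    rw [Finset.sum_congr rfl e2, Finset.sum_sub_distrib, Finset.sum_const, sub_smul,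
      mul_comm (Polynomial.X : Polynomial ℂ)]
    have e3 : (Polynomial.C (F.card : ℂ) : Polynomial ℂ) • E = F.card • E := by
      rw [map_natCast, Nat.cast_smul_eq_nsmul]
    rw [e3]
    abel
  -- substitution of the linear relations
  have hlin : ((2 : Polynomial ℂ) * Polynomial.X) • ∑ i ∈ F,
      (1 + Polynomial.C (b i) * Polynomial.X : Polynomial ℂ) • Lam g F (X i) =
      (2 : Polynomial ℂ) • ∑ l ∈ F, (Polynomial.C (u l) + Polynomial.C (w l) * Polynomial.X :
        Polynomial ℂ) • ((1 - Polynomial.C (b l) * Polynomial.X : Polynomial ℂ) • E -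
          Lam g (F.erase l) 1) := by
    have e1 : ∀ i ∈ F, (1 + Polynomial.C (b i) * Polynomial.X : Polynomial ℂ) • Lam g F (X i) =
        ∑ l ∈ F, ((2 : Polynomial ℂ) * (Polynomial.C (u l) + Polynomial.C (w l) * Polynomial.X)) •
          ((Polynomial.C (A l i) : Polynomial ℂ) • Lam g F (X i * 1)) := by
      intro i hi
      have e2 : (1 + Polynomial.C (b i) * Polynomial.X : Polynomial ℂ) =
          ∑ l ∈ F, ((2 : Polynomial ℂ) * (Polynomial.C (u l) + Polynomial.C (w l) *
            Polynomial.X)) * Polynomial.C (A l i) := by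
        have e3 : ∀ l ∈ F, ((2 : Polynomial ℂ) * (Polynomial.C (u l) + Polynomial.C (w l) *
            Polynomial.X)) * Polynomial.C (A l i) = Polynomial.C (2 * (A i l * u l)) +
              Polynomial.C (2 * (A i l * w l)) * Polynomial.X := by
          intro l _
          have h2 : (2 : Polynomial ℂ) = Polynomial.C 2 := rfl
          rw [hA i l, h2, Polynomial.C_mul, Polynomial.C_mul, Polynomial.C_mul, Polynomial.C_mul]
          ring
        rw [Finset.sum_congr rfl e3, Finset.sum_add_distrib, ← Finset.sum_mul, ← map_sum,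
          ← map_sum, hu2 i hi, hw2 i hi, Polynomial.C_1]
      rw [mul_one]
      conv_lhs => rw [e2]
      rw [Finset.sum_smul]
      refine Finset.sum_congr rfl fun l _ => ?_
      rw [smul_smul]
    rw [Finset.sum_congr rfl e1, Finset.sum_comm, Finset.smul_sum, Finset.smul_sum]
    refine Finset.sum_congr rfl fun l hl => ?_
    have h2 := inv_rel (a := a) (b := b) L Dg hA hl 1
    rw [← hg, ← hE] at h2
    have h3 : Lam g F (pderiv l 1) = 0 := by
      rw [pderiv_one, lam_zero L]
    rw [h3, sub_zero] at h2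
    rw [← Finset.smul_sum, ← h2, smul_smul, smul_smul, smul_smul]
    congr 1
    ring
  have hfin : (2 : Polynomial ℂ) • (((2 : Polynomial ℂ) * Polynomial.X) • vt E) =
      (2 : Polynomial ℂ) • ((Polynomial.C (∑ l ∈ F, u l) - Polynomial.C (F.card : ℂ) *
        Polynomial.X + Polynomial.C (2 * a - ∑ i ∈ F, w i * b i) * Polynomial.X ^ 2) • E +
        ((∑ i ∈ F, (Polynomial.C (-u i) : Polynomial ℂ) • Lam g (F.erase i) 1) +
          (Polynomial.X : Polynomial ℂ) •
            ∑ i ∈ F, (Polynomial.C (-w i) : Polynomial ℂ) • Lam g (F.erase i) 1)) := by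
    have e1 : (2 : Polynomial ℂ) • (((2 : Polynomial ℂ) * Polynomial.X) • vt E) =
        ((2 : Polynomial ℂ) * Polynomial.X) • ((2 : Polynomial ℂ) • vt E) := by
      rw [smul_smul, smul_smul, mul_comm]
    rw [e1, hvt, smul_add, hlin, smul_smul]
    have e2 : ∑ l ∈ F, (Polynomial.C (u l) + Polynomial.C (w l) * Polynomial.X :
        Polynomial ℂ) • ((1 - Polynomial.C (b l) * Polynomial.X : Polynomial ℂ) • E -
          Lam g (F.erase l) 1) = (Polynomial.C (∑ l ∈ F, u l) -
          Polynomial.C (∑ i ∈ F, w i * b i) * Polynomial.X ^ 2 : Polynomial ℂ) • E +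
        ((∑ i ∈ F, (Polynomial.C (-u i) : Polynomial ℂ) • Lam g (F.erase i) 1) +
          (Polynomial.X : Polynomial ℂ) •
            ∑ i ∈ F, (Polynomial.C (-w i) : Polynomial ℂ) • Lam g (F.erase i) 1) := by
      have e3 : ∀ l ∈ F, (Polynomial.C (u l) + Polynomial.C (w l) * Polynomial.X :
          Polynomial ℂ) • ((1 - Polynomial.C (b l) * Polynomial.X : Polynomial ℂ) • E -
          Lam g (F.erase l) 1) = (Polynomial.C (u l) + Polynomial.C (w l - u l * b l) *
          Polynomial.X - Polynomial.C (w l * b l) * Polynomial.X ^ 2 : Polynomial ℂ) • E +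
          ((Polynomial.C (-u l) : Polynomial ℂ) • Lam g (F.erase l) 1 +
          (Polynomial.X : Polynomial ℂ) • ((Polynomial.C (-w l) : Polynomial ℂ) •
            Lam g (F.erase l) 1)) := by
        intro l _
        rw [smul_sub, smul_smul, smul_smul, ← add_smul, sub_eq_add_neg, ← neg_smul]
        congr 2
        · rw [Polynomial.C_sub, Polynomial.C_mul, Polynomial.C_mul]
          ring
        · rw [Polynomial.C_neg, Polynomial.C_neg]
          ring
      rw [Finset.sum_congr rfl e3, Finset.sum_add_distrib, Finset.sum_add_distrib,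
        ← Finset.sum_smul, ← Finset.smul_sum]
      congr 2
      rw [Finset.sum_sub_distrib, Finset.sum_add_distrib, ← Finset.sum_mul, ← Finset.sum_mul,
        ← map_sum, ← map_sum, ← map_sum, Finset.sum_sub_distrib, hsym, sub_self, Polynomial.C_0,
        zero_mul, add_zero]
    rw [e2]
    generalize ((∑ i ∈ F, (Polynomial.C (-u i) : Polynomial ℂ) • Lam g (F.erase i) 1) +
          (Polynomial.X : Polynomial ℂ) •
            ∑ i ∈ F, (Polynomial.C (-w i) : Polynomial ℂ) • Lam g (F.erase i) 1) = R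
    rw [smul_add (2 : Polynomial ℂ), smul_add (2 : Polynomial ℂ), ← add_assoc, smul_smul,
      smul_smul, ← add_smul]
    congr 2
    rw [Polynomial.C_sub]
    ring
  have h2 : (2 : Polynomial ℂ) ≠ 0 := two_ne_zero
  refine sub_eq_zero.1 (L.2.2.2.2.1 2 h2 _ ?_)
  rw [smul_sub, hfin, sub_self]

end Pool.Agent.Helper90.QF
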