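import Pool.Agent.Helper90.QF.Asm2

/-!
# Project QF (MP_04a253_al): assembly, part 3
-/

set_option autoImplicit false

open MvPolynomial

noncomputable section

namespace Pool.Agent.Helper90.QF

variable {n : ℕ}

/-- order at least minus one -/
def O2 (z : UU) : Prop := ∀ (c : ℂ) (j : ℤ), j ≤ -2 → co z c j = 0

lemma O2_add (U : StUBA) {z z' : UU} (h : O2 z) (h' : O2 z') : O2 (z + z') := by
  intro c j hj
  rw [co_add U, h c j hj, h' c j hj, add_zero]

lemma O2_neg {z : UU} (h : O2 z) : O2 (-z) := by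
  intro c j hj
  rw [co_neg, h c j hj, neg_zero]

lemma O2_smul (U : StUBA) {z : UU} (c : ℂ) (h : O2 z) :
    O2 ((Polynomial.C c : Polynomial ℂ) • z) := by
  intro c' j hj
  rw [co_C U, h c' j hj, mul_zero]

lemma O2_sum (U : StUBA) {ι : Type} (s : Finset ι) (f : ι → UU) (h : ∀ i ∈ s, O2 (f i)) :
    O2 (∑ i ∈ s, f i) := by
  intro c j hj
  rw [co_sum U]
  exact Finset.sum_eq_zero fun i hi => h i hi c j hj

lemma O0.o2 {z : UU} (h : O0 z) : O2 z := fun c j hj => h c j (by omega)

/-- the variable times a series of order one -/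
lemma O2_lin (U : StUBA) {z : UU} (b : ℂ) (h : P1 z) :
    O2 ((1 - Polynomial.C b * Polynomial.X : Polynomial ℂ) • z) := by
  rw [sub_smul, one_smul, mul_smul, sub_eq_add_neg]
  refine O2_add U h.o0.o2 (O2_neg (O2_smul U b ?_))
  intro c j hj
  rw [co_X U]
  exact h c _ (by omega)

theorem fok_inv (U : StUBA) (L : StLAM) (S : StSOL) (Dg : StDEG) (O : StORD)
    {W : Submodule (Polynomial ℂ) (PowerSeries ℂ × UU)} (hW : Good vt th W) (hD : DomC W) {a : ℂ}
    {b : Fin n → ℂ} {A : Fin n → Fin n → ℂ} (hA : ∀ i j, A i j = A j i) {F : Finset (Fin n)}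
    (hn : ¬ Cst b A F) (hlow : ∀ i ∈ F, FOK W a b A (F.erase i)) {B : Fin n → Fin n → ℂ}
    (hB1 : ∀ i ∈ F, ∀ j ∈ F, ∑ l ∈ F, B i l * A l j = if i = j then 1 else 0)
    (hB2 : ∀ i ∈ F, ∀ j ∈ F, ∑ l ∈ F, A i l * B l j = if i = j then 1 else 0) : FOK W a b A F := by
  have hcard : 1 ≤ F.card := by
    rw [Nat.one_le_iff_ne_zero, Finset.card_ne_zero]
    by_contra hF
    rw [Finset.not_nonempty_iff_eq_empty] at hF
    apply hn
    intro i hi
    rw [hF] at hi
    exact absurd hi (Finset.notMem_empty i)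
  obtain ⟨u, w, σ, hw0, hode⟩ := ode (a := a) (b := b) L Dg hA hB2
  obtain ⟨zu, hu1, hu2, -, -⟩ := lower U hlow (fun i => -u i) 1
  obtain ⟨zw, hw1, hw2, -, hw4⟩ := lower U hlow (fun i => -w i) 1
  obtain ⟨z, hz1, hz2⟩ := hD (Lam (qf a b A) F 1) _ _ ((2 : Polynomial ℂ) * Polynomial.X) _
    (mul_ne_zero two_ne_zero Polynomial.X_ne_zero)
    (W.add_mem hu1 (W.smul_mem (Polynomial.X : Polynomial ℂ) hw1)) hode
    (S.1 σ (2 * a - ∑ i ∈ F, w i * b i) F.card (zu + (Polynomial.X : Polynomial ℂ) • zw))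
  have hz : P1 z := by
    refine O.1 σ (2 * a - ∑ i ∈ F, w i * b i) F.card zu zw z hcard hz2 (fun c j hj => hu2 c j hj)
      (fun c j hj => hw2 c j hj) ?_
    intro c hc
    apply hw4
    intro hca i hi hcst
    rw [hca] at hc
    have hκ : ∑ i ∈ F, w i * b i = 0 := by linear_combination hc
    rw [Finset.sum_eq_single_of_mem i hi] at hκ
    · rw [neg_eq_zero]
      rcases mul_eq_zero.1 hκ with h | h
      · exact h
      · apply hw0
        intro j hj
        by_cases hji : j = i
        · rw [hji]; exact h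
        · exact (hcst j (Finset.mem_erase.2 ⟨hji, hj⟩)).1
    · intro j hj hji
      rw [(hcst j (Finset.mem_erase.2 ⟨hji, hj⟩)).1, mul_zero]
  have main : ∀ h : MvPolynomial (Fin n) ℂ, ∃ z, (Lam (qf a b A) F h, z) ∈ W ∧ P1 z := by
    have hQ0 : ∃ z, (Lam (qf a b A) F (0 : MvPolynomial (Fin n) ℂ), z) ∈ W ∧ P1 z := by
      refine ⟨0, ?_, P1_zero⟩
      rw [lam_zero L]
      exact W.zero_mem
    have hQC : ∀ (c : ℂ) (h : MvPolynomial (Fin n) ℂ), (∃ z, (Lam (qf a b A) F h, z) ∈ W ∧ P1 z) →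
        ∃ z, (Lam (qf a b A) F (C c * h), z) ∈ W ∧ P1 z := by
      rintro c h ⟨z, hz, hz'⟩
      refine ⟨(Polynomial.C c : Polynomial ℂ) • z, ?_, P1_smul U c hz'⟩
      rw [lam_C L]
      exact W.smul_mem _ hz
    apply mono_ind (fun h => ∃ z, (Lam (qf a b A) F h, z) ∈ W ∧ P1 z)
    · rintro h h' ⟨z, hz, hz'⟩ ⟨y, hy, hy'⟩
      refine ⟨z + y, ?_, P1_add U hz' hy'⟩
      rw [lam_add L]
      exact W.add_mem hz hy
    · exact hQC
    · intro s hs
      by_cases hs0 : s = 0
      · refine ⟨z, ?_, hz⟩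
        rw [hs0]
        exact hz1
      · obtain ⟨k, hk⟩ := Finsupp.ne_iff.1 hs0
        have hk : s k ≠ 0 := hk
        set s' := s - Finsupp.single k 1 with hs'
        have hdeg : s'.degree < s.degree := (pderiv_mono s k).2 hk
        have hX : (monomial s 1 : MvPolynomial (Fin n) ℂ) = X k * monomial s' 1 := by
          have h1 : Finsupp.single k 1 + s' = s := by
            rw [add_comm]
            apply tsub_add_cancel_of_le
            rw [Finsupp.single_le_iff]
            omega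
          rw [X, monomial_mul, one_mul, h1]
        rw [hX]
        by_cases hkF : k ∈ F
        · obtain ⟨zh, hzh1, hzh2⟩ := hs s' hdeg
          have hd : ∀ i, ∃ z, (Lam (qf a b A) F (pderiv i (monomial s' 1)), z) ∈ W ∧ P1 z := by
            intro i
            exact Q_pderiv (fun h => ∃ z, (Lam (qf a b A) F h, z) ∈ W ∧ P1 z) hQ0 hQC s'
              (fun s'' hs'' => hs s'' (hs''.trans hdeg)) i
          choose zd hzd1 hzd2 using hd
          obtain ⟨zl, hl1, hl2, -, -⟩ := lower U hlow (fun i => B k i) (monomial s' 1)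
          have hm1 : (∑ i ∈ F, (Polynomial.C (B k i) : Polynomial ℂ) •
              ((1 - Polynomial.C (b i) * Polynomial.X : Polynomial ℂ) •
                Lam (qf a b A) F (monomial s' 1) -
                Lam (qf a b A) F (pderiv i (monomial s' 1))),
              ∑ i ∈ F, (Polynomial.C (B k i) : Polynomial ℂ) •
              ((1 - Polynomial.C (b i) * Polynomial.X : Polynomial ℂ) • zh - zd i)) ∈ W :=
            pair_sum F _ _ fun i _ => W.smul_mem _ (W.sub_mem (W.smul_mem _ hzh1) (hzd1 i))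
          have hm2 := W.sub_mem hm1 hl1
          set zr := (∑ i ∈ F, (Polynomial.C (B k i) : Polynomial ℂ) •
              ((1 - Polynomial.C (b i) * Polynomial.X : Polynomial ℂ) • zh - zd i)) - zl with hzr
          have hO : O2 zr := by
            rw [hzr, sub_eq_add_neg]
            refine O2_add U (O2_sum U F _ fun i _ => O2_smul U _ ?_) (O2_neg (O0.o2 hl2))
            rw [sub_eq_add_neg]
            exact O2_add U (O2_lin U _ hzh2) (O2_neg (hzd2 i).o0.o2)
          have hp : ((2 : Polynomial ℂ) * Polynomial.X) ≠ 0 :=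
            mul_ne_zero two_ne_zero Polynomial.X_ne_zero
          obtain ⟨z', hz'⟩ := U.2.2.2.2.2.2.1 _ hp zr
          refine ⟨z', ?_, ?_⟩
          · apply hW.sat _ hp
            rw [hz', inv_rel2 L Dg hA hB1 hkF]
            have e : ∑ i ∈ F, (Polynomial.C (B k i) : Polynomial ℂ) •
                ((1 - Polynomial.C (b i) * Polynomial.X : Polynomial ℂ) •
                Lam (qf a b A) F (monomial s' 1) - Lam (qf a b A) F (pderiv i (monomial s' 1)) -
                Lam (qf a b A) (F.erase i) (monomial s' 1)) =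
                ∑ i ∈ F, (Polynomial.C (B k i) : Polynomial ℂ) •
                ((1 - Polynomial.C (b i) * Polynomial.X : Polynomial ℂ) •
                Lam (qf a b A) F (monomial s' 1) -
                Lam (qf a b A) F (pderiv i (monomial s' 1))) -
                ∑ i ∈ F, (Polynomial.C (B k i) : Polynomial ℂ) •
                Lam (qf a b A) (F.erase i) (monomial s' 1) := by
              rw [← Finset.sum_sub_distrib]
              refine Finset.sum_congr rfl fun i _ => ?_
              rw [← smul_sub]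
            rw [e]
            exact hm2
          · intro c j hj
            have h1 := hO c (j - 2) (by omega)
            rw [← hz', mul_smul] at h1
            have h2 : (2 : Polynomial ℂ) = Polynomial.C 2 := rfl
            rw [h2, co_C U, co_X U] at h1
            have h3 : j - 2 + 2 = j := by ring
            rw [h3] at h1
            rcases mul_eq_zero.1 h1 with h4 | h4
            · exact absurd (Polynomial.C_eq_zero.1 h4) two_ne_zero
            · exact h4
        · refine ⟨0, ?_, P1_zero⟩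
          rw [lam_van L _ F hkF]
          exact W.zero_mem
  intro h
  obtain ⟨z, h1, h2⟩ := main h
  exact ⟨z, h1, fun hc => absurd hc hn, fun _ => h2⟩

theorem fok_all (U : StUBA) (L : StLAM) (S : StSOL) (Dg : StDEG) (O : StORD) (Su : StSUR)
    (Li : StLIN) {W : Submodule (Polynomial ℂ) (PowerSeries ℂ × UU)} (hW : Good vt th W)
    (hD : DomC W) (a : ℂ) (b : Fin n → ℂ) (A : Fin n → Fin n → ℂ) (hA : ∀ i j, A i j = A j i)
    (F : Finset (Fin n)) : FOK W a b A F := by
  induction F using Finset.strongInduction with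
  | H F ih =>
    have hlow : ∀ i ∈ F, FOK W a b A (F.erase i) := fun i hi => ih _ (Finset.erase_ssubset hi)
    by_cases hc : Cst b A F
    · exact fok_const U L S O hD hc
    · rcases Li n A F with ⟨ξ, hξ, hξF, hk⟩ | ⟨B, hB1, hB2⟩
      · exact fok_ker U L Dg O Su hW hA hc hlow hξ hξF hk
      · exact fok_inv U L S Dg O hW hD hA hc hlow hB1 hB2

/-- the main theorem -/
theorem main_QF (Ab : StABS) (U : StUBA) (L : StLAM) (S : StSOL) (Dg : StDEG) (O : StORD)
    (Su : StSUR) (Li : StLIN) (n q : ℕ) (g h : Fin q → MvPolynomial (Fin n) ℂ)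
    (hg : ∀ j, g j ≠ 0 ∧ (g j).totalDegree ≤ 2) (M : ℕ)
    (hM : ∀ m, M ≤ m → ∑ j, LF Finset.univ (h j * g j ^ m) = 0) :
    ∀ m, ∑ j, LF Finset.univ (h j * g j ^ m) = 0 := by
  have t1 := Ab (Polynomial ℂ) (PowerSeries ℂ) UU
    (fun p => Polynomial.X * Polynomial.derivative p) vt th
  have t2 := t1 L.2.2.1
  have t3 := t2 U.2.2.2.1
  have t4 := t3 L.2.2.2.1
  have t5 := t4 U.2.2.2.2.1
  have t6 := t5 L.2.2.2.2.1
  have t7 := t6 U.2.2.2.2.2.1
  have t8 := t7 U.2.2.2.2.2.2.1
  have t9 := t8 1 z1 one_ne_zero L.2.2.2.2.2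
  obtain ⟨W, hW, h1, hD⟩ := t9 U.2.2.2.2.2.2.2.1
  have hj : ∀ j, ∃ z, (Lam (g j) Finset.univ (h j), z) ∈ W ∧ ∀ l : ℤ, l ≤ 0 → co z 0 l = 0 := by
    intro j
    obtain ⟨a, b, A, hA, hq⟩ := Dg.1 n (g j) (hg j).2
    obtain ⟨z, hz1, hz2, hz3⟩ := fok_all U L S Dg O Su Li hW hD a b A hA Finset.univ (h j)
    rw [← hq] at hz1
    refine ⟨z, hz1, fun l hl => ?_⟩
    by_cases hc : Cst b A Finset.univ
    · have ha : a ≠ 0 := by
        intro ha
        apply (hg j).1
        rw [hq, ha]
        unfold qf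
        have e1 : ∀ i, C (b i) * X i = (0 : MvPolynomial (Fin n) ℂ) := by
          intro i
          rw [(hc i (Finset.mem_univ i)).1, C_0, zero_mul]
        have e2 : ∀ i k, C (A i k) * (X i * X k) = (0 : MvPolynomial (Fin n) ℂ) := by
          intro i k
          rw [(hc i (Finset.mem_univ i)).2 k (Finset.mem_univ k), C_0, zero_mul]
        simp [e1, e2]
      exact (hz2 hc).1 0 l (Ne.symm ha)
    · exact hz3 hc 0 l hl
  choose z hz1 hz2 using hj
  set T := ∑ j, Lam (g j) Finset.univ (h j) with hT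
  have hco : ∀ m, PowerSeries.coeff m T = (∑ j, LF Finset.univ (h j * g j ^ m)) / m.factorial := by
    intro m
    rw [hT, map_sum, Finset.sum_div]
    refine Finset.sum_congr rfl fun j _ => ?_
    simp [Lam]
  set P := PowerSeries.trunc M T with hP
  have hPT : P • (1 : PowerSeries ℂ) = T := by
    have e1 : P • (1 : PowerSeries ℂ) = (P : PowerSeries ℂ) * 1 := rfl
    rw [e1, mul_one]
    ext m
    rw [Polynomial.coeff_coe, hP, PowerSeries.coeff_trunc]
    split_ifs with hm
    · rfl
    · rw [hco, hM m (not_lt.1 hm), zero_div]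
  have hmem1 : (T, ∑ j, z j) ∈ W := by
    rw [hT]
    exact pair_sum Finset.univ _ _ fun j _ => hz1 j
  have hmem2 : (P • (1 : PowerSeries ℂ), P • z1) ∈ W := W.smul_mem P h1
  rw [hPT] at hmem2
  have hmem3 := W.sub_mem hmem2 hmem1
  rw [Prod.mk_sub_mk, sub_self] at hmem3
  have hzero := sub_eq_zero.1 (hW.fn _ hmem3)
  have hP0 : P = 0 := by
    ext m
    have e1 := U.2.2.2.2.2.2.2.2.1 P m
    have e4 : ∀ j, co (z j) 0 (-2 * (m : ℤ)) = 0 := fun j => hz2 j _ (by omega)
    have e5 : co (∑ j, z j) 0 (-2 * (m : ℤ)) = 0 := by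
      rw [co_sum U]
      exact Finset.sum_eq_zero fun j _ => e4 j
    rw [hzero, e5] at e1
    rw [Polynomial.coeff_zero]
    exact Polynomial.C_eq_zero.1 e1.symm
  intro m
  have e2 := hco m
  rw [← hPT, hP0, zero_smul, map_zero] at e2
  have e3 : ((m.factorial : ℕ) : ℂ) ≠ 0 := by exact_mod_cast m.factorial_ne_zero
  exact (div_eq_zero_iff.1 e2.symm).resolve_right e3

end Pool.Agent.Helper90.QF
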