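import Pool.Agent.Helper90.QF.St

/-!
# Project QF: module LAM
-/

set_option autoImplicit false

open MvPolynomial

noncomputable section

namespace Pool.Agent.Helper90.QF

theorem LAM_smul_eq (p : Polynomial ℂ) (x : PowerSeries ℂ) :
    p • x = (p : PowerSeries ℂ) * x := by
  rw [Algebra.smul_def]
  rfl

theorem LAM_Xsmul_coeff_zero (x : PowerSeries ℂ) :
    PowerSeries.coeff 0 ((Polynomial.X : Polynomial ℂ) • x) = 0 := by
  rw [LAM_smul_eq, Polynomial.coe_X, PowerSeries.coeff_zero_X_mul]

theorem LAM_Xsmul_coeff_succ (x : PowerSeries ℂ) (m : ℕ) :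
    PowerSeries.coeff (m + 1) ((Polynomial.X : Polynomial ℂ) • x) = PowerSeries.coeff m x := by
  rw [LAM_smul_eq, Polynomial.coe_X, PowerSeries.coeff_succ_X_mul]

theorem LAM_Csmul_coeff (a : ℂ) (x : PowerSeries ℂ) (m : ℕ) :
    PowerSeries.coeff m ((Polynomial.C a : Polynomial ℂ) • x) = a * PowerSeries.coeff m x := by
  rw [LAM_smul_eq, Polynomial.coe_C, PowerSeries.coeff_C_mul]

theorem LAM_vt_coeff (x : PowerSeries ℂ) (m : ℕ) :
    PowerSeries.coeff m (vt x) = m * PowerSeries.coeff m x := by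
  cases m with
  | zero => simp [vt]
  | succ m =>
    rw [vt, PowerSeries.coeff_succ_X_mul, PowerSeries.coeff_derivative]
    push_cast
    ring

theorem LAM_Lam_coeff {n : ℕ} (g : MvPolynomial (Fin n) ℂ) (F : Finset (Fin n))
    (h : MvPolynomial (Fin n) ℂ) (m : ℕ) :
    PowerSeries.coeff m (Lam g F h) = LF F (h * g ^ m) / m.factorial := by
  rw [Lam, PowerSeries.coeff_mk]

theorem LAM_X_mul {n : ℕ} (F : Finset (Fin n)) (i : Fin n) (hi : i ∉ F)
    (p : MvPolynomial (Fin n) ℂ) : LF F (X i * p) = 0 := by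
  classical
  induction p using MvPolynomial.induction_on' with
  | monomial s a =>
    rw [X, monomial_mul, LF_monomial, if_neg, mul_zero]
    intro h
    have := h i hi
    simp at this
  | add p q hp hq => rw [mul_add, map_add, hp, hq, add_zero]

theorem LAM_pderiv {n : ℕ} (F : Finset (Fin n)) (i : Fin n) (hi : i ∈ F)
    (p : MvPolynomial (Fin n) ℂ) : LF F (pderiv i p) = LF F p - LF (F.erase i) p := by
  classical
  induction p using MvPolynomial.induction_on' with
  | monomial s a =>
    rw [pderiv_monomial, LF_monomial, LF_monomial, LF_monomial]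
    by_cases hs : s i = 0
    · have e : (∀ k, k ∉ F.erase i → s k = 0) ↔ (∀ k, k ∉ F → s k = 0) := by
        constructor
        · intro h k hk
          exact h k (fun h1 => hk (Finset.mem_of_mem_erase h1))
        · intro h k hk
          by_cases hki : k = i
          · rw [hki]; exact hs
          · exact h k (fun h1 => hk (Finset.mem_erase.2 ⟨hki, h1⟩))
      rw [hs, if_congr e rfl rfl]
      simp
    · have e2 : ¬ (∀ k, k ∉ F.erase i → s k = 0) := fun h => hs (h i (Finset.notMem_erase i F))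
      rw [if_neg e2, mul_zero, sub_zero]
      have e1 : (∀ k, k ∉ F → (s - Finsupp.single i 1 : Fin n →₀ ℕ) k = 0) ↔ (∀ k, k ∉ F → s k = 0) := by
        refine forall_congr' fun k => ?_
        refine imp_congr_right fun hk => ?_
        have hki : i ≠ k := fun h => hk (h ▸ hi)
        rw [Finsupp.tsub_apply, Finsupp.single_apply, if_neg hki, Nat.sub_zero]
      rw [if_congr e1 rfl rfl]
      split_ifs with h1
      · have e3 : (∏ k, (((s - Finsupp.single i 1 : Fin n →₀ ℕ) k).factorial : ℂ)) * (s i : ℂ) =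
            ∏ k, ((s k).factorial : ℂ) := by
          rw [← Finset.mul_prod_erase Finset.univ _ (Finset.mem_univ i),
            ← Finset.mul_prod_erase Finset.univ (fun k => ((s k).factorial : ℂ))
              (Finset.mem_univ i)]
          have e4 : ∀ k ∈ Finset.univ.erase i,
              (((s - Finsupp.single i 1 : Fin n →₀ ℕ) k).factorial : ℂ) = ((s k).factorial : ℂ) := by
            intro k hk
            have hki : i ≠ k := (Finset.ne_of_mem_erase hk).symm
            rw [Finsupp.tsub_apply, Finsupp.single_apply, if_neg hki, Nat.sub_zero]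
          rw [Finset.prod_congr rfl e4]
          obtain ⟨b, hb⟩ := Nat.exists_eq_succ_of_ne_zero hs
          rw [Finsupp.tsub_apply, Finsupp.single_apply, if_pos rfl, hb, Nat.succ_sub_one,
            Nat.factorial_succ]
          push_cast
          ring
        rw [← e3]
        ring
      · ring
  | add p q hp hq =>
    rw [map_add, map_add, map_add, map_add, hp, hq]
    ring

theorem LAM_a {n : ℕ} (g : MvPolynomial (Fin n) ℂ) (F : Finset (Fin n)) (i : Fin n) (hi : i ∈ F)
    (h : MvPolynomial (Fin n) ℂ) :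
    Lam g F (pderiv i h) + (Polynomial.X : Polynomial ℂ) • Lam g F (h * pderiv i g) =
      Lam g F h - Lam g (F.erase i) h := by
  ext m
  rw [map_add, map_sub, LAM_Lam_coeff, LAM_Lam_coeff, LAM_Lam_coeff, ← sub_div,
    ← LAM_pderiv F i hi, pderiv_mul, pderiv_pow, map_add, add_div]
  congr 1
  cases m with
  | zero => rw [LAM_Xsmul_coeff_zero]; simp
  | succ m =>
    rw [LAM_Xsmul_coeff_succ, LAM_Lam_coeff, Nat.add_sub_cancel]
    have e : h * (((m + 1 : ℕ) : MvPolynomial (Fin n) ℂ) * g ^ m * pderiv i g) =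
        C ((m : ℂ) + 1) * (h * pderiv i g * g ^ m) := by
      have e1 : ((m + 1 : ℕ) : MvPolynomial (Fin n) ℂ) = C ((m : ℂ) + 1) := by
        rw [map_add, map_natCast, map_one]
        push_cast
        ring
      rw [e1]
      ring
    rw [e, C_mul', map_smul, smul_eq_mul, Nat.factorial_succ]
    push_cast
    have h1 : (m : ℂ) + 1 ≠ 0 := Nat.cast_add_one_ne_zero m
    have h2 : (m.factorial : ℂ) ≠ 0 := Nat.cast_ne_zero.2 (Nat.factorial_ne_zero m)
    field_simp

theorem LAM_b {n : ℕ} (g : MvPolynomial (Fin n) ℂ) (F : Finset (Fin n))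
    (h : MvPolynomial (Fin n) ℂ) :
    vt (Lam g F h) = (Polynomial.X : Polynomial ℂ) • Lam g F (h * g) := by
  ext m
  rw [LAM_vt_coeff]
  cases m with
  | zero => rw [LAM_Xsmul_coeff_zero]; simp
  | succ m =>
    rw [LAM_Xsmul_coeff_succ, LAM_Lam_coeff, LAM_Lam_coeff, Nat.factorial_succ, pow_succ',
      ← mul_assoc]
    push_cast
    have h1 : (m : ℂ) + 1 ≠ 0 := Nat.cast_add_one_ne_zero m
    have h2 : (m.factorial : ℂ) ≠ 0 := Nat.cast_ne_zero.2 (Nat.factorial_ne_zero m)
    field_simp

theorem LAM_c {n : ℕ} (g : MvPolynomial (Fin n) ℂ) (F : Finset (Fin n)) (a : ℂ)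
    (ha : ∀ p : MvPolynomial (Fin n) ℂ, LF F (p * (g - C a)) = 0) (h : MvPolynomial (Fin n) ℂ)
    (m : ℕ) : LF F (h * g ^ m) = a ^ m * LF F h := by
  induction m generalizing h with
  | zero => simp
  | succ m ih =>
    have e : h * g ^ (m + 1) = h * g ^ m * (g - C a) + C a * (h * g ^ m) := by ring
    rw [e, map_add, ha, zero_add, C_mul', map_smul, smul_eq_mul, ih, pow_succ]
    ring

/-- module LAM -/
theorem hLAM : StLAM := by
  refine ⟨fun n g F => ⟨?_, ?_, ?_, fun i hi h => LAM_a g F i hi h, fun h => LAM_b g F h, ?_⟩,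
    ?_, ?_, ?_, ?_, ?_⟩
  · intro h h'
    ext m
    rw [map_add, LAM_Lam_coeff, LAM_Lam_coeff, LAM_Lam_coeff, add_mul, map_add, add_div]
  · intro c h
    ext m
    rw [LAM_Csmul_coeff, LAM_Lam_coeff, LAM_Lam_coeff, mul_assoc, C_mul', map_smul, smul_eq_mul,
      mul_div_assoc]
  · intro i hi h
    ext m
    rw [LAM_Lam_coeff, mul_assoc, LAM_X_mul F i hi, zero_div, map_zero]
  · intro a ha h
    ext m
    rw [LAM_Csmul_coeff, LAM_Lam_coeff, PowerSeries.coeff_mk, LAM_c g F a ha]
    ring
  · intro a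
    ext m
    rw [LAM_vt_coeff, PowerSeries.coeff_mk, mul_smul]
    rw [LAM_Csmul_coeff]
    cases m with
    | zero => rw [LAM_Xsmul_coeff_zero]; simp
    | succ m =>
      rw [LAM_Xsmul_coeff_succ, PowerSeries.coeff_mk, Nat.factorial_succ, pow_succ]
      push_cast
      have h1 : (m : ℂ) + 1 ≠ 0 := Nat.cast_add_one_ne_zero m
      have h2 : (m.factorial : ℂ) ≠ 0 := Nat.cast_ne_zero.2 (Nat.factorial_ne_zero m)
      field_simp
  · intro x y
    ext m
    rw [map_add, LAM_vt_coeff, LAM_vt_coeff, LAM_vt_coeff, map_add]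
    ring
  · intro p x
    rw [LAM_smul_eq, LAM_smul_eq, LAM_smul_eq, vt, vt, Derivation.leibniz, smul_eq_mul, smul_eq_mul,
      PowerSeries.derivative_coe, Polynomial.coe_mul, Polynomial.coe_X]
    ring
  · intro p hp x hx
    rw [LAM_smul_eq] at hx
    rcases mul_eq_zero.1 hx with h | h
    · exact absurd (Polynomial.coe_eq_zero_iff.1 h) hp
    · exact h
  · rw [vt, ← map_one (PowerSeries.C (R := ℂ)), PowerSeries.derivative_C, mul_zero]

end Pool.Agent.Helper90.QF
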