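import Pool.Agent.Helper90.QF.Asm3

/-!
# Project QF (MP_04a253_al): residue classes and powers
-/

set_option autoImplicit false

open MvPolynomial

noncomputable section

namespace Pool.Agent.Helper90.QF

theorem LF_univ {n : ℕ} (P : MvPolynomial (Fin n) ℂ) :
    LF Finset.univ P = ∑ s ∈ P.support, P.coeff s * ∏ i, ((s i).factorial : ℂ) := by
  conv_lhs => rw [P.as_sum]
  rw [map_sum]
  refine Finset.sum_congr rfl fun s _ => ?_
  rw [LF_monomial]
  simp

/-- the statement for sums -/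
def SumSt : Prop :=
  ∀ (n q : ℕ) (g h : Fin q → MvPolynomial (Fin n) ℂ),
    (∀ j, g j ≠ 0 ∧ (g j).totalDegree ≤ 2) → ∀ M : ℕ,
    (∀ m, M ≤ m → ∑ j, LF Finset.univ (h j * g j ^ m) = 0) →
    ∀ m, ∑ j, LF Finset.univ (h j * g j ^ m) = 0

/-- the statement for a finite index type -/
theorem sum_fintype (H : SumSt) {ι : Type} [Fintype ι] (n : ℕ)
    (g h : ι → MvPolynomial (Fin n) ℂ)
    (hg : ∀ j, g j ≠ 0 ∧ (g j).totalDegree ≤ 2) (M : ℕ)
    (hM : ∀ m, M ≤ m → ∑ j, LF Finset.univ (h j * g j ^ m) = 0) (m : ℕ) :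
    ∑ j, LF Finset.univ (h j * g j ^ m) = 0 := by
  have e : ∀ m, ∑ j, LF Finset.univ (h j * g j ^ m) =
      ∑ j : Fin (Fintype.card ι), LF Finset.univ (h ((Fintype.equivFin ι).symm j) *
        g ((Fintype.equivFin ι).symm j) ^ m) := fun m =>
    (Equiv.sum_comp (Fintype.equivFin ι).symm
      (fun j => LF Finset.univ (h j * g j ^ m))).symm
  rw [e]
  exact H n _ (fun j => g ((Fintype.equivFin ι).symm j)) (fun j => h ((Fintype.equivFin ι).symm j))
    (fun j => hg _) M (fun m hm => by rw [← e]; exact hM m hm) m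

/-- residue classes -/
theorem residue (H : SumSt) (n q : ℕ) (g h : Fin q → MvPolynomial (Fin n) ℂ)
    (hg : ∀ j, g j ≠ 0 ∧ (g j).totalDegree ≤ 2) (r m0 M : ℕ) (hr : 1 ≤ r)
    (hM : ∀ m, M ≤ m → m ≡ m0 [MOD r] → ∑ j, LF Finset.univ (h j * g j ^ m) = 0) (m1 : ℕ)
    (hm1 : m1 ≡ m0 [MOD r]) : ∑ j, LF Finset.univ (h j * g j ^ m1) = 0 := by
  obtain ⟨ζ, hζ⟩ : ∃ ζ : ℂ, IsPrimitiveRoot ζ r :=
    ⟨_, Complex.isPrimitiveRoot_exp r (by omega)⟩
  have hζ0 : ζ ≠ 0 := hζ.ne_zero (by omega)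
  set G : Fin q × Fin r → MvPolynomial (Fin n) ℂ := fun a => C (ζ ^ (a.2 : ℕ)) * g a.1 with hG
  set K : Fin q × Fin r → MvPolynomial (Fin n) ℂ :=
    fun a => C (((ζ ^ m1)⁻¹) ^ (a.2 : ℕ)) * h a.1 with hK
  have hval : ∀ m, ∑ a, LF Finset.univ (K a * G a ^ m) =
      (∑ j : Fin r, (ζ ^ m * (ζ ^ m1)⁻¹) ^ (j : ℕ)) *
        ∑ j, LF Finset.univ (h j * g j ^ m) := by
    intro m
    rw [Fintype.sum_prod_type, Finset.sum_comm, Finset.sum_mul]
    refine Finset.sum_congr rfl fun i _ => ?_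
    rw [Finset.mul_sum]
    refine Finset.sum_congr rfl fun j _ => ?_
    have e : K (j, i) * G (j, i) ^ m =
        C ((ζ ^ m * (ζ ^ m1)⁻¹) ^ (i : ℕ)) * (h j * g j ^ m) := by
      rw [hG, hK]
      simp only
      rw [mul_pow, ← map_pow, mul_pow (ζ ^ m), ← pow_mul, ← pow_mul, mul_comm m (i : ℕ), C_mul]
      ring
    rw [e, C_mul', map_smul, smul_eq_mul]
  have hzero : ∀ m, ¬ m ≡ m1 [MOD r] → ∑ j : Fin r, (ζ ^ m * (ζ ^ m1)⁻¹) ^ (j : ℕ) = 0 := by
    intro m hm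
    set x := ζ ^ m * (ζ ^ m1)⁻¹ with hx
    have hx1 : x ≠ 1 := by
      intro h1
      apply hm
      have h2 : ζ ^ m = ζ ^ m1 := by
        have h3 : ζ ^ m1 ≠ 0 := pow_ne_zero _ hζ0
        rw [hx] at h1
        field_simp at h1
        exact h1
      refine Nat.ModEq.symm ((Nat.modEq_iff_dvd).2 ?_)
      rw [← hζ.zpow_eq_one_iff_dvd, zpow_sub₀ hζ0, zpow_natCast, zpow_natCast, h2]
      exact div_self (pow_ne_zero _ hζ0)
    have hxr : x ^ r = 1 := by
      rw [hx, mul_pow, inv_pow, ← pow_mul, ← pow_mul, mul_comm m, mul_comm m1, pow_mul, pow_mul,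
        hζ.pow_eq_one, one_pow, one_pow, inv_one, one_mul]
    rw [Fin.sum_univ_eq_sum_range (fun j => x ^ j) r]
    have h3 := mul_neg_geom_sum x r
    rw [hxr, sub_self] at h3
    exact (mul_eq_zero.1 h3).resolve_left (sub_ne_zero.2 (Ne.symm hx1))
  have hall := sum_fintype H n G K (fun j => ⟨?_, ?_⟩) M (fun m hm => ?_) m1
  · rw [hval] at hall
    have e : ζ ^ m1 * (ζ ^ m1)⁻¹ = 1 := mul_inv_cancel₀ (pow_ne_zero _ hζ0)
    rw [e] at hall
    simp only [one_pow, Finset.sum_const, Finset.card_univ, Fintype.card_fin, nsmul_eq_mul,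
      mul_one] at hall
    rcases mul_eq_zero.1 hall with h1 | h1
    · have : (r : ℂ) ≠ 0 := by
        have : r ≠ 0 := by omega
        exact_mod_cast this
      exact absurd h1 this
    · exact h1
  · rw [hG]
    simp only
    exact mul_ne_zero (by rw [Ne, C_eq_zero]; exact pow_ne_zero _ hζ0) (hg _).1
  · rw [hG]
    simp only
    refine (totalDegree_mul _ _).trans ?_
    rw [totalDegree_C, zero_add]
    exact (hg _).2
  · rw [hval]
    by_cases hmm : m ≡ m1 [MOD r]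
    · rw [hM m hm (hmm.trans hm1), mul_zero]
    · rw [hzero m hmm, zero_mul]

end Pool.Agent.Helper90.QF
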