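import Mathlib

/-!
# Project QF (MP_04a253_al): the Factorial Conjecture for all polynomials of degree at most two

`g` is a polynomial of degree at most two in `n` variables, `F` a face (set of variables), `Lam g F h` the series
`∑ t^m L_F(h g^m) / m!`, where `L_F` is the factorial functional after the variables outside `F` are set to `0`.
-/

set_option autoImplicit false

open MvPolynomial

noncomputable section

namespace Pool.Agent.Helper90.QF

/-! ### the abstract part -/

/-- A graph between two modules with operators: functional, saturated, stable under the operators. -/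
structure Good {R M N : Type} [CommRing R] [AddCommGroup M] [AddCommGroup N] [Module R M]
    [Module R N] (ϑ : M → M) (θ : N → N) (W : Submodule R (M × N)) : Prop where
  fn : ∀ z, ((0 : M), z) ∈ W → z = 0
  sat : ∀ p : R, p ≠ 0 → ∀ x z, (p • x, p • z) ∈ W → (x, z) ∈ W
  der : ∀ x z, (x, z) ∈ W → (ϑ x, θ z) ∈ W

/-- Module ABS (about 120 lines). Transfer of solutions.  PROOF.
(0) `W0 = {(x, y) | ∃ p ≠ 0, ∃ q, p • x = q • e0 ∧ p • y = q • z0}` is `Good` and contains ` (e0, z0)` (this is the step (1) below for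
`⊥`, `e = e0`, `p0 = 1`, `α = 0`; `⊥` is `Good` because `M` and `N` are torsion free).
(1) Extension.  Let `W` be `Good`, ` (s, σ) ∈ W`, `p0 ≠ 0`, `p0 • ϑ e = α • e + s`, `p0 • θ z = α • z + σ`, and suppose that ` (p • e, y) ∈ W` only for
`p = 0`.  Then `W' = {(x, y) | ∃ p ≠ 0, ∃ q, (p • x - q • e, p • y - q • z) ∈ W}` is `Good`, contains `W` (`p = 1, q = 0`) and ` (e, z)`
(`p = q = 1`).  `fn`: ` (0, y) ∈ W'`: ` (-q • e, p • y - q • z) ∈ W`, so `q = 0`, ` (0, p • y) ∈ W`, `p • y = 0`, `y = 0`.  `sat`: product of two nonzero elements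
(`IsDomain`).  Sum: `p1 p2 (x1 + x2) - (p2 q1 + p1 q2) e = p2 (p1 x1 - q1 e) + p1 (p2 x2 - q2 e)`.  `der`: let `X0 = p • x - q • e`.  Then
` (p0 p²) • ϑ x - (p q α + p0 p D q - p0 q D p) • e = (p0 p) • ϑ X0 - (p0 D p) • X0 + (p q) • s`, and the same formula holds for `y, z, σ, θ` and
`Y0 = p • y - q • z`; ` (X0, Y0) ∈ W`, ` (ϑ X0, θ Y0) ∈ W`, ` (s, σ) ∈ W`, and `p0 p² ≠ 0`.
(2) Zorn (`zorn_le_nonempty₀` or similar for the set of the `Good` submodules above `W0`; the supremum of a nonempty chain of submodules is its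
union, `Submodule.mem_sSup_of_directed`, and is `Good`): let `W ≥ W0` be maximal.
(3) Last clause.  If ` (p • e, y) ∈ W` for some `p ≠ 0` and `y`, write `y = p • z'` (divisibility), so ` (e, z') ∈ W` by `sat`; ` (ϑ e, θ z') ∈ W`, hence
` (0, p0 • θ z' - α • z' - σ) ∈ W`, so this is `0`.  Otherwise (1) gives `W' ≥ W` `Good` with ` (e, z) ∈ W'`, and `W' = W` by maximality. -/
def StABS : Prop :=
  ∀ (R M N : Type) [CommRing R] [IsDomain R] [AddCommGroup M] [AddCommGroup N] [Module R M]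
    [Module R N] (D : R → R) (ϑ : M → M) (θ : N → N),
    (∀ x y, ϑ (x + y) = ϑ x + ϑ y) → (∀ x y, θ (x + y) = θ x + θ y) →
    (∀ (p : R) (x : M), ϑ (p • x) = p • ϑ x + D p • x) →
    (∀ (p : R) (z : N), θ (p • z) = p • θ z + D p • z) →
    (∀ p : R, p ≠ 0 → ∀ x : M, p • x = 0 → x = 0) → (∀ p : R, p ≠ 0 → ∀ z : N, p • z = 0 → z = 0) →
    (∀ p : R, p ≠ 0 → ∀ z : N, ∃ z', p • z' = z) →
    ∀ (e0 : M) (z0 : N), e0 ≠ 0 → ϑ e0 = 0 → θ z0 = 0 →
    ∃ W : Submodule R (M × N), Good ϑ θ W ∧ (e0, z0) ∈ W ∧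
      ∀ (e s : M) (σ : N) (p0 α : R), p0 ≠ 0 → (s, σ) ∈ W → p0 • ϑ e = α • e + s →
        (∃ z, p0 • θ z = α • z + σ) → ∃ z, (e, z) ∈ W ∧ p0 • θ z = α • z + σ

/-! ### formal solutions at infinity -/

/-- Laurent series in `τ = t^(-1/2)` with coefficients polynomials in `log t`. -/
abbrev KK : Type := HahnSeries ℤ (Polynomial ℂ)

/-- The element `t = τ^(-2)`. -/
def TT : KK := HahnSeries.single (-2) 1

/-- Substitution of `t`. -/
def ev : Polynomial ℂ →ₐ[ℂ] KK := Polynomial.aeval TT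

/-- Families of series; the component `c` stands for a multiple of `exp (c t)`. -/
def UU : Type := ℂ → KK

instance : AddCommGroup UU := inferInstanceAs (AddCommGroup (ℂ → KK))

instance : Module (Polynomial ℂ) UU :=
  Module.compHom (ℂ → KK) (ev : Polynomial ℂ →+* KK)

/-- The coefficient of `τ^j` in the component `c`. -/
def co (z : UU) (c : ℂ) (j : ℤ) : Polynomial ℂ := (z c).coeff j

theorem UU.smul_apply (p : Polynomial ℂ) (z : UU) (c : ℂ) : (p • z) c = ev p * z c := rfl

theorem UU.add_apply (z z' : UU) (c : ℂ) : (z + z') c = z c + z' c := rfl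

/-- The operator `t d/dt` on series. -/
def del (z : KK) : KK where
  coeff j := Polynomial.derivative (z.coeff j) - Polynomial.C ((j : ℂ) / 2) * z.coeff j
  isPWO_support' := z.isPWO_support.mono (by
    intro j hj
    simp only [Function.mem_support, HahnSeries.mem_support] at hj ⊢
    intro h
    apply hj
    rw [h]
    simp)

/-- The operator `t d/dt` on families. -/
def th (z : UU) : UU := fun c => del (z c) + c • (TT * z c)

/-- The family which is `1` in the component `0`. -/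
def z1 : UU := fun c => open Classical in if c = 0 then 1 else 0

/-- Module UBA (about 120 lines). Basic facts.  PROOF.  (1) `HahnSeries.coeff_single_mul_add`: ` (TT * x).coeff j = x.coeff (j + 2)`; coefficientwise.
(2), (3) `ev p` for `p ≠ 0` is a unit of `KK`: `HahnSeries.isUnit_iff`, its leading coefficient is that of `p` (a nonzero constant): by induction or directly
` (ev p).coeff j = ∑ m, if j = -2 m then C (p.coeff m) else 0`, order `-2 natDegree p`.  Then multiply by the inverse in every component.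
(4) coefficients of `ev p`.  (5) `th` is additive, and for `p = X`: `del (TT * x) = TT * del x + TT * x`; for constants clear; then
`Polynomial.induction_on` (products with `X`).  (6) `del 1 = 0` etc. -/
def StUBA : Prop :=
  (∀ (z : UU) (c : ℂ) (j : ℤ), co ((Polynomial.X : Polynomial ℂ) • z) c j = co z c (j + 2)) ∧
  (∀ (a : ℂ) (z : UU) (c : ℂ) (j : ℤ),
    co ((Polynomial.C a : Polynomial ℂ) • z) c j = Polynomial.C a * co z c j) ∧
  (∀ (z : UU) (c : ℂ) (j : ℤ), co (th z) c j = Polynomial.derivative (co z c j) -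
    Polynomial.C ((j : ℂ) / 2) * co z c j + Polynomial.C c * co z c (j + 2)) ∧
  (∀ z z' : UU, th (z + z') = th z + th z') ∧
  (∀ (p : Polynomial ℂ) (z : UU),
    th (p • z) = p • th z + (Polynomial.X * Polynomial.derivative p) • z) ∧
  (∀ p : Polynomial ℂ, p ≠ 0 → ∀ z : UU, p • z = 0 → z = 0) ∧
  (∀ p : Polynomial ℂ, p ≠ 0 → ∀ z : UU, ∃ z', p • z' = z) ∧
  th z1 = 0 ∧
  (∀ (p : Polynomial ℂ) (m : ℕ), co (p • z1) 0 (-2 * (m : ℤ)) = Polynomial.C (p.coeff m)) ∧
  (∀ (z : UU) (c : ℂ), ∃ J : ℤ, ∀ j < J, co z c j = 0) ∧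
  (∀ f : ℂ → ℤ → Polynomial ℂ, (∀ c, ∃ J : ℤ, ∀ j < J, f c j = 0) → ∃ z : UU, ∀ c j, co z c j = f c j) ∧
  (∀ z z' : UU, (∀ c j, co z c j = co z' c j) → z = z') ∧
  (∀ (z z' : UU) (c : ℂ) (j : ℤ), co (z + z') c j = co z c j + co z' c j)

/-- Module SOL (about 120 lines; hypothesis `hUBA : StUBA`). Solvability.  PROOF.  Fix `c`, write `z_j = co z c j`, `r_j = co r c j`.  The coefficient of `τ^j` of the equation
` (2X) • th z = (σ - k X + κ X²) • z + r` is `2 (z'_(j+2) - ((j+2)/2) z_(j+2) + c z_(j+4)) = σ z_j - k z_(j+2) + κ z_(j+4) + r_j`.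
(a) If `2c ≠ κ` this is ` (2c - κ) z_j = -2 z'_(j-2) + (j-2-k) z_(j-2) + σ z_(j-4) + r_(j-4)`: a recursion.  (b) If `2c = κ` it is
`z'_j + ((k - j)/2) z_j = (σ z_(j-2) + r_(j-2))/2`, which for given right hand side `ρ` is solved in `ℂ[X]`: for `j = k` by an antiderivative, for
`b = (k-j)/2 ≠ 0` by `∑_i (-1)^i ρ^(i) / b^(i+1)` (or: `p ↦ p' + b p` is injective on the finite dimensional space of the polynomials of degree `≤ N`).
In both cases `z_j` is a function `Φ_j` of the `z_i`, `i < j`, with `Φ_j(0) = 0` for `j` below a bound `J` (choose `z_j = 0` when the right hand side is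
`0`), so there is a solution with `z_j = 0` for `j < J` (recursion over `j = J + n`, `n : ℕ`).  Second statement: `z` = `1` in the component `a`, else `0`. -/
def StSOL : Prop :=
  (∀ (σ κ : ℂ) (k : ℕ) (r : UU), ∃ z : UU, ((2 : Polynomial ℂ) * Polynomial.X) • th z =
    (Polynomial.C σ - Polynomial.C (k : ℂ) * Polynomial.X +
      Polynomial.C κ * Polynomial.X ^ 2) • z + r) ∧
  ∀ a : ℂ, ∃ z : UU, th z = (Polynomial.C a * Polynomial.X) • z

/-- Order at least one in all components. -/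
def P1 (z : UU) : Prop := ∀ (c : ℂ) (j : ℤ), j ≤ 0 → co z c j = 0

/-- Concentrated in the component `a`, of order at least zero. -/
def P0 (a : ℂ) (z : UU) : Prop := (∀ (c : ℂ) (j : ℤ), c ≠ a → co z c j = 0) ∧
  ∀ j : ℤ, j < 0 → co z a j = 0

/-- Module ORD (about 100 lines; hypothesis `hUBA : StUBA`). Orders of solutions.  PROOF.  (1) With the recursions of `StSOL` and `r_j = co r0 c j + co r1 c (j+2)`:
(a) `2c ≠ κ`: `r_j = 0` for `j < -2`; let `J` be a bound for `z` (`z_j = 0` for `j < J`); by strong induction `z_j = 0` for all `j < 2` (all terms on the right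
vanish).  (b) `2c = κ`: `r_(j-2) = co r0 c (j-2) + co r1 c j = 0` for `j ≤ 0`; by induction `z_j = 0` for `j ≤ 0`: `z'_j + ((k-j)/2) z_j = 0`
with `k - j ≠ 0` forces `z_j = 0` (leading coefficient).  (2) Component `c`: `z'_j - (j/2) z_j = (a - c) z_(j+2)`.  `c ≠ a`: `z_(j+2)` is determined by `z_j`, so `z = 0`
(bounded below).  `c = a`: `z'_j = (j/2) z_j` forces `z_j = 0` for `j ≠ 0`.  (3) `α z_j - β z_(j+2) = r_j`: induction from below: `z_j = 0` for `j < 2`. -/
def StORD : Prop :=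
  (∀ (σ κ : ℂ) (k : ℕ) (r0 r1 z : UU), 1 ≤ k → ((2 : Polynomial ℂ) * Polynomial.X) • th z =
    (Polynomial.C σ - Polynomial.C (k : ℂ) * Polynomial.X +
      Polynomial.C κ * Polynomial.X ^ 2) • z + (r0 + (Polynomial.X : Polynomial ℂ) • r1) →
    (∀ c (j : ℤ), j < 0 → co r0 c j = 0) → (∀ c (j : ℤ), j < 0 → co r1 c j = 0) →
    (∀ c, 2 * c = κ → co r1 c 0 = 0) → P1 z) ∧
  (∀ (a : ℂ) (z : UU), th z = (Polynomial.C a * Polynomial.X) • z → P0 a z) ∧
  ∀ (α β : ℂ) (r z : UU), β ≠ 0 → (Polynomial.C α - Polynomial.C β * Polynomial.X) • z = r →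
    (∀ c (j : ℤ), j < 0 → co r c j = 0) → P1 z

/-! ### the functional -/

open Classical in
/-- The factorial functional on the face `F`. -/
def LF {n : ℕ} (F : Finset (Fin n)) : MvPolynomial (Fin n) ℂ →ₗ[ℂ] ℂ :=
  (basisMonomials (Fin n) ℂ).constr ℂ fun s =>
    if ∀ i, i ∉ F → s i = 0 then ∏ i, ((s i).factorial : ℂ) else 0

theorem LF_monomial {n : ℕ} (F : Finset (Fin n)) (s : Fin n →₀ ℕ) (a : ℂ) :
    LF F (monomial s a) = open Classical in
      a * if ∀ i, i ∉ F → s i = 0 then ∏ i, ((s i).factorial : ℂ) else 0 := by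
  have h : (monomial s a : MvPolynomial (Fin n) ℂ) = a • monomial s 1 := by
    rw [smul_monomial, smul_eq_mul, mul_one]
  rw [h, map_smul, smul_eq_mul]
  congr 1
  have h2 := (basisMonomials (Fin n) ℂ).constr_basis ℂ (fun s =>
    open Classical in if ∀ i, i ∉ F → s i = 0 then ∏ i, ((s i).factorial : ℂ) else 0) s
  rw [coe_basisMonomials] at h2
  exact h2

/-- The generating series of the moments of `g` with multiplier `h` on the face `F`. -/
def Lam {n : ℕ} (g : MvPolynomial (Fin n) ℂ) (F : Finset (Fin n)) (h : MvPolynomial (Fin n) ℂ) :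
    PowerSeries ℂ :=
  PowerSeries.mk fun m => LF F (h * g ^ m) / m.factorial

/-- The operator `t d/dt` on power series. -/
def vt (x : PowerSeries ℂ) : PowerSeries ℂ := PowerSeries.X * PowerSeries.derivative ℂ x

/-- Module LAM (about 120 lines). The relations.  PROOF.  Rules for `LF F` on monomials (`LF_monomial`, linearity, `MvPolynomial.induction_on'` or `induction_on'''`):
`LF F (X i * p) = 0` if `i ∉ F` (the exponent of `i` is positive); `LF F (pderiv i p) = LF F p - LF (F.erase i) p` if `i ∈ F`: for `p = X^s`, `pderiv i p = s_i X^(s - e_i)`;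
if `s_i ≥ 1` then `s_i (s - e_i)! = s!` and the second functional vanishes; if `s_i = 0` the two functionals agree.  Then coefficientwise:
the coefficient of `t^m` of `X • Lam g F (h * pderiv i g)` is `LF F (h * pderiv i g * g^(m-1))/(m-1)!` (`0` for `m = 0`) and
`pderiv i (h g^m) = pderiv i h g^m + m h g^(m-1) pderiv i g`; ` (vt x)_m = m x_m`.  (`PowerSeries` as a module over `Polynomial`: `p • x = (p : PowerSeries) * x`,
`PowerSeries.algebraPolynomial`.)  Torsion: `PowerSeries ℂ` is a domain.  If `g = C a` on the face: if `∀ p, LF F (p * (g - C a)) = 0` then `LF F (h g^m) = a^m LF F h`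
(`g^m = a^m + (g - a) * …`), and `vt` of the series `a^m/m! * LF F h` is clear. -/
def StLAM : Prop :=
  (∀ (n : ℕ) (g : MvPolynomial (Fin n) ℂ) (F : Finset (Fin n)),
    (∀ h h', Lam g F (h + h') = Lam g F h + Lam g F h') ∧
    (∀ (c : ℂ) h, Lam g F (C c * h) = (Polynomial.C c : Polynomial ℂ) • Lam g F h) ∧
    (∀ i ∉ F, ∀ h, Lam g F (X i * h) = 0) ∧
    (∀ i ∈ F, ∀ h, Lam g F (pderiv i h) + (Polynomial.X : Polynomial ℂ) • Lam g F (h * pderiv i g) =
      Lam g F h - Lam g (F.erase i) h) ∧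
    (∀ h, vt (Lam g F h) = (Polynomial.X : Polynomial ℂ) • Lam g F (h * g)) ∧
    (∀ a : ℂ, (∀ p : MvPolynomial (Fin n) ℂ, LF F (p * (g - C a)) = 0) → ∀ h,
      Lam g F h = (Polynomial.C (LF F h) : Polynomial ℂ) • PowerSeries.mk fun m => a ^ m / m.factorial)) ∧
  (∀ a : ℂ, vt (PowerSeries.mk fun m => a ^ m / m.factorial) =
    (Polynomial.C a * Polynomial.X) • PowerSeries.mk fun m => a ^ m / m.factorial) ∧
  (∀ x y, vt (x + y) = vt x + vt y) ∧
  (∀ (p : Polynomial ℂ) x, vt (p • x) = p • vt x + (Polynomial.X * Polynomial.derivative p) • x) ∧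
  (∀ p : Polynomial ℂ, p ≠ 0 → ∀ x : PowerSeries ℂ, p • x = 0 → x = 0) ∧ vt 1 = 0

/-- The general polynomial of degree at most two. -/
def qf {n : ℕ} (a : ℂ) (b : Fin n → ℂ) (A : Fin n → Fin n → ℂ) : MvPolynomial (Fin n) ℂ :=
  C a + ∑ i, C (b i) * X i + ∑ i, ∑ j, C (A i j) * (X i * X j)

/-- Module DEG (about 80 lines). Polynomials of degree at most two; its derivatives.  PROOF.  By `MvPolynomial.as_sum`: every exponent in the support has degree `0`, `1` or `2`, i.e. it is
`0`, `single i 1` or `single i 1 + single j 1`.  `a`, `b i` are the coefficients, `A i i` the coefficient of `X i ^ 2`, `A i j = A j i` half of the coefficient of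
`X i * X j` (`i ≠ j`); compare coefficients, or prove that the set of the `qf a b A` with symmetric `A` is closed under sums and contains the monomials of
degree at most two.  Derivatives: `pderiv_X`, linearity, symmetry. -/
def StDEG : Prop :=
  (∀ (n : ℕ) (g : MvPolynomial (Fin n) ℂ), g.totalDegree ≤ 2 → ∃ (a : ℂ) (b : Fin n → ℂ)
    (A : Fin n → Fin n → ℂ), (∀ i j, A i j = A j i) ∧ g = qf a b A) ∧
  ∀ (n : ℕ) (a : ℂ) (b : Fin n → ℂ) (A : Fin n → Fin n → ℂ), (∀ i j, A i j = A j i) →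
    (∀ i, pderiv i (qf a b A) = C (b i) + C 2 * ∑ j, C (A i j) * X j) ∧
    C 2 * (qf a b A - C a) = ∑ i, (C (b i) * X i + X i * pderiv i (qf a b A))

/-- Module SUR (about 80 lines). A nonzero constant vector field is surjective.  PROOF.  Let `ξ i0 ≠ 0`, `∂ = ∑ i, ξ i ∂_i`.  By linearity it is enough to find for every monomial `X^s` an `H`
with `∂ H = X^s`; induction on `∑_(j ≠ i0) s j` (for all `s`).  `H0 = X^(s + e_(i0)) / (ξ i0 (s i0 + 1))` has `∂ H0 = X^s +` a linear combination of the monomials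
`X^(s + e_(i0) - e_j)` with `j ≠ i0`, `s j ≥ 1`, to which the induction hypothesis applies. -/
def StSUR : Prop :=
  ∀ (n : ℕ) (ξ : Fin n → ℂ), (∃ i, ξ i ≠ 0) → ∀ h : MvPolynomial (Fin n) ℂ,
    ∃ H : MvPolynomial (Fin n) ℂ, ∑ i, C (ξ i) * pderiv i H = h

/-- Module LIN (about 60 lines). Linear algebra.  PROOF.  The principal submatrix `A_F` (index type `↥F`) is either singular: a nonzero vector in its kernel (`Matrix.exists_mulVec_eq_zero_iff`),
extended by `0`, or has an inverse matrix (`Matrix.nonsing_inv_mul`), extended by `0`. -/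
def StLIN : Prop :=
  ∀ (n : ℕ) (A : Fin n → Fin n → ℂ) (F : Finset (Fin n)),
    (∃ ξ : Fin n → ℂ, (∃ i, ξ i ≠ 0) ∧ (∀ i, i ∉ F → ξ i = 0) ∧ ∀ i ∈ F, ∑ j ∈ F, A i j * ξ j = 0) ∨
    ∃ B : Fin n → Fin n → ℂ, (∀ i ∈ F, ∀ j ∈ F, ∑ l ∈ F, B i l * A l j = if i = j then 1 else 0) ∧
      ∀ i ∈ F, ∀ j ∈ F, ∑ l ∈ F, A i l * B l j = if i = j then 1 else 0

end Pool.Agent.Helper90.QF
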